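import Mathlib
import Pool.Agent.Helper43.Hw.Goals
import Pool.Agent.Helper18.SG.Goals

/-!
# Project EW (MP_d3128a_ag): plane curves with `n` general points of equal multiplicity `m`

Definitions. The rows `0, …, R - 1` (super rows of degree `p`, lengths `ℓ y`) are filled by `N`
ordinary points, one moving point per row (`κ`, `x`: the games of `Pool.Agent.Helper43.Hw`), and by
`K` special points which move together in the rows `τ, …, s - 1`; the special point `i` has the slope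
`e i` and gives `μ - P t / e i` to the row `t` (`P t` decreases). Notation in the comments:
`J = R - 1 - μ` (the last row before the natural values become positive), `w = R - 1 - y`.
-/

set_option autoImplicit false

namespace Pool.Agent.Helper18.EW

open Finset
open Pool.Agent.Helper43.Hw (T na va lz Play aa ac sc oo sk U Dd Sd Pn nx bb np)
open Pool.Agent.Helper43.Gm (Pri)

/-- the greedy rule on the rows `Y + 1, …, R - 2` for the row lengths `L` -/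
def Gr (μ R N Y : ℕ) (L κ x : ℕ → ℕ) : Prop :=
  ∀ y, Y ≤ y → y + 2 < R → κ y < N →
    (L (y + 1) ≤ bb μ R N κ x y ∧ lz μ R N κ x (y + 1) = bb μ R N κ x y ∧
      ((κ (y + 1) = κ y ∧ x (y + 1) = nx μ R x y) ∨
        (κ (y + 1) = κ y + 1 ∧ nx μ R x y = μ ∧ (κ (y + 1) < N → x (y + 1) = na μ R (y + 1))))) ∨
    (bb μ R N κ x y < L (y + 1) ∧
      (lz μ R N κ x (y + 1) = L (y + 1) ∨ (κ (y + 1) = N ∧ lz μ R N κ x (y + 1) ≤ L (y + 1))))

/-- the rows `0, …, Y` are exactly filled (lengths `L`) and some point has not become old -/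
def Ex (μ R N : ℕ) (L κ x : ℕ → ℕ) (Y : ℕ) : Prop :=
  Y < R ∧ κ Y < N ∧ ∀ z ≤ Y, lz μ R N κ x z = L z

/-- number of rows before `y` at which the moving point `κ y` has been raised above the natural
value -/
def kk (μ R : ℕ) (κ x : ℕ → ℕ) (y : ℕ) : ℕ :=
  ((range y).filter (fun z => κ z = κ y ∧ na μ R z < x z)).card

/-- the beginning of a play, on the rows `0, …, Y` -/
structure Pre (μ R N Y : ℕ) (κ x : ℕ → ℕ) : Prop where
  mono : ∀ y < Y, κ y ≤ κ (y + 1)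
  le : ∀ y ≤ Y, κ y ≤ N
  lt : ∀ y ≤ Y, x y < μ
  nat : ∀ y ≤ Y, κ y < N → na μ R y ≤ x y
  fin : ∀ y ≤ Y, κ y = N → x y = 0
  inc : ∀ y < Y, 0 < x y → κ (y + 1) = κ y → x y < x (y + 1)

/-- the row lengths (`β = p ^ 2`) -/
structure Len (R β : ℕ) (ℓ : ℕ → ℕ) : Prop where
  b1 : 1 ≤ β
  z0 : 100 * ℓ 0 ≤ β * R
  z1 : ℓ 0 < ℓ 1
  st : ∀ y, 1 ≤ y → y + 1 < R → ℓ (y + 1) = ℓ y + β
  lo : ∀ y, 1 ≤ y → y < R → β * (2 * y) ≤ 2 * ℓ y + β
  hi : ∀ y < R, 50 * ℓ y ≤ 51 * (β * R)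

/-- the parameters -/
structure Par (μ R K b l Lg q : ℕ) : Prop where
  l1 : 1 ≤ l
  R1 : 100 * μ ≤ R
  L1 : 1 ≤ Lg
  qL : q + 1 ≤ Lg
  hK : K = b * (q + 1)
  b1 : 2 ^ 40 * Lg ≤ b
  b2 : 2 ^ 31 * b * (q + 1) ^ 2 * l ≤ μ
  hL : 22 * μ < 2 ^ Lg * l

/-- the first row at which the special point `i` is old -/
def gs (s : ℕ) (e P : ℕ → ℕ) (i : ℕ) : ℕ := if e i ≤ P (s - 1) then s else s - 1

/-- the special point `i` as a play with one point: `κ` -/
def gk (s : ℕ) (e P : ℕ → ℕ) (i y : ℕ) : ℕ := if y < gs s e P i then 0 else 1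

/-- the special point `i` as a play with one point: `x` -/
def gx (μ τ s : ℕ) (e P : ℕ → ℕ) (i y : ℕ) : ℕ :=
  if τ ≤ y ∧ y < gs s e P i then μ - P y / e i else 0

/-- the special points -/
structure Grp (μ R K τ s E : ℕ) (e P : ℕ → ℕ) : Prop where
  t1 : 1 ≤ τ
  tJ : τ + 1 + μ ≤ R
  ts : τ + 2 ≤ s
  Js : R < s + 1 + μ
  sR : s + 2 ≤ R
  e1 : ∀ i < K, 0 < e i ∧ e i ≤ E ∧ E ≤ 2 * e i
  nd : ∀ i < K, ∀ t, τ ≤ t → t < s → ¬ e i ∣ P t
  dr : ∀ t, τ ≤ t → t + 1 < s → P (t + 1) + E ≤ P t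
  ma : ∀ i < K, P (R - 1 - μ) / e i < μ

/-- the load of the row `z` by the special points -/
def gV (μ R K τ s : ℕ) (e P : ℕ → ℕ) (z : ℕ) : ℕ :=
  ∑ i ∈ range K, va μ R (gk s e P i) (gx μ τ s e P i) 0 z

/-- number of special points alive at the row `y` (old) -/
def gO (μ R K τ s : ℕ) (e P : ℕ → ℕ) (y : ℕ) : ℕ :=
  ∑ i ∈ range K, oo μ R (gk s e P i) (gx μ τ s e P i) y

/-- number of skips of the special points between the rows `y` and `y + 1` -/
def gK (μ K τ s : ℕ) (e P : ℕ → ℕ) (y : ℕ) : ℕ :=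
  ∑ i ∈ range K, sk μ (gk s e P i) (gx μ τ s e P i) y

/-- `Dd` for the special points -/
def gD (μ R K τ s : ℕ) (e P : ℕ → ℕ) (y : ℕ) : ℕ :=
  ∑ i ∈ range K, Dd μ R (gk s e P i) (gx μ τ s e P i) y

/-- `Sd` for the special points -/
def gS (μ R K τ s : ℕ) (e P : ℕ → ℕ) (y : ℕ) : ℕ :=
  ∑ i ∈ range K, Sd μ R (gk s e P i) (gx μ τ s e P i) y

/-- number of the special points started in the rows `J - X + 1, …` -/
def gN (μ R K τ s : ℕ) (e P : ℕ → ℕ) (X : ℕ) : ℕ :=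
  ((range K).filter (fun i => R - 1 - μ < ac R (gk s e P i) (gx μ τ s e P i) 0 + X)).card

/-- number of the skips of the special points at distance `≤ w` from the last row -/
def gQ (μ R K τ s : ℕ) (e P : ℕ → ℕ) (w : ℕ) : ℕ :=
  ∑ i ∈ range K, ((range s).filter (fun t => 0 < gx μ τ s e P i t ∧
    U μ R (gx μ τ s e P i) t ≤ w)).card

/-- The ordinary play until the row `s`: exact (lengths `ℓ`) before the row `τ`, at `τ` a point
becomes old and nobody is moving, and the rows `τ, …, s - 1` are a pause. `J - v1 < τ ≤ J - v1 + l`,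
`v1 = 2 ^ q * v`. -/
structure Ph (μ R N K b l Lg q β v τ s : ℕ) (ℓ κ x : ℕ → ℕ) : Prop where
  par : Par μ R K b l Lg q
  len : Len R β ℓ
  lo : 4 * μ ^ 2 ≤ l * (β * R)
  hi : l * (β * R) ≤ 8 * μ ^ 2
  v1 : 1 ≤ v
  vb : 320 * (2 ^ q * v) ≤ b * l
  vc : b * l ≤ 640 * (2 ^ q * v)
  t1 : R - 1 - μ < τ + 2 ^ q * v
  t2 : τ + 2 ^ q * v ≤ R - 1 - μ + l
  Js : R < s + 1 + μ
  sR : s ≤ R
  play : Play μ R N κ x
  ex : Ex μ R N ℓ κ x (τ - 1)
  g1 : κ (τ - 1) < κ τ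
  g2 : κ τ < N
  pa : ∀ y, τ ≤ y → y < s → κ y = κ τ ∧ x y = na μ R y

/-- What the zone needs to know about the special points: `L` are the lengths which remain for the
ordinary points, `o` the number of special points alive, `k` their skips, `D`, `S` the weighted deaths
and skips, `n X` the number of special points started in the rows `J - X + 1, …`. -/
structure Ext (μ R N K b β s : ℕ) (W : ℤ) (L o k D S n : ℕ → ℕ) : Prop where
  Js : R < s + 1 + μ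
  inc : ∀ y, s ≤ y → y + 1 < R → L (y + 1) = L y + β + o y + k y
  tot : ∀ y, s ≤ y → y < R →
    ∑ z ∈ range y, (L z : ℤ) + (R - y : ℕ) * L y + (β + o y) * T (R - 1 - y) + S y =
      N * T μ + W + D y
  oa : ∀ y, s ≤ y → y + 1 < R → o (y + 1) ≤ o y
  dth : ∀ z y, s ≤ z → z ≤ y → y < R → o z + n (R - 1 - y) ≤ o y + n (R - 1 - z)
  Dn : ∀ y, s ≤ y → y < R → D y ≤ T (R - 1 - y) * n (R - 1 - y)
  nK : ∀ X, n X ≤ K
  Sq : ∀ y, s ≤ y → y < R → 2 ^ 24 * S y ≤ (R - 1 - y) * (2 ^ 24 * K + (R - y) * b)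
  kq : ∀ y, s ≤ y → y < R → 2 ^ 24 * ∑ j ∈ Ico y (R - 1), k j ≤ 2 ^ 24 * K + (R - y) * b

/-- the pause before the row `s`, seen from the zone -/
def Pau (μ R s : ℕ) (κ x : ℕ → ℕ) : Prop :=
  ∀ t, R ≤ t + 1 + μ → t < s → κ t = κ (s - 1) ∧ x t = na μ R t

/-- the common hypotheses of the packets Z10, Z10a, Z10b -/
structure Zon (μ R N K b l Lg q β s : ℕ) (W : ℤ) (L o k D S n κ x : ℕ → ℕ) (y : ℕ) : Prop where
  par : Par μ R K b l Lg q
  ext : Ext μ R N K b β s W L o k D S n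
  play : Play μ R N κ x
  ex : Ex μ R N L κ x y
  sy : s ≤ y
  y2 : y + 2 ≤ R
  pau : Pau μ R s κ x
  hnp : ∀ X ≤ μ, l * np μ R N κ x X ≤ 40 * X + 2 * l
  hD : (R - 1 - y) ^ 2 * (b * l + (R - 1 - y)) ≤ 4096 * l * (Dd μ R κ x y + D y)
  w1 : 2 ^ 21 * μ ≤ (R - 1 - y) * (b * l + (R - 1 - y))
  w3 : 2 ^ 14 * l * |W| ≤ (((R - 1 - y) ^ 2 * (b * l + (R - 1 - y)) : ℕ) : ℤ)
  ih : ∀ z, s ≤ z → z < y →
    b * l + (R - 1 - z) + 2 ^ 14 * l * (N - κ z) ≤ 2 ^ 14 * l * (β + o z + oo μ R κ x z)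

end Pool.Agent.Helper18.EW
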