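import Mathlib
import Pool.Agent.Helper18.EW.Defs

/-!
# Project EW: intermediate statements (packets), part 1: the game before the zone, special points

Every packet: create `Pool/Agent/<You>/EW/<Name>.lean` with `theorem goalX : GoalX` (goals used are
hypotheses, e.g. `theorem goalE8 (h3 : GoalE3) (h6 : GoalE6) … : GoalE8`). The facts H1, H2, H4 of
`Pool.Agent.Helper43.Hw` are proved (`Pool/Agent/Helper43/Hw/Main.lean`: `PkH1.goalH1`, `goalH2`,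
`goalH4`) and may be used or taken as hypotheses. Notation: `J = R - 1 - μ`, `w = R - 1 - y`,
`na y = y - J` for `y ≥ J` and `0` before; all subtractions are subtractions of natural numbers.
-/

set_option autoImplicit false

namespace Pool.Agent.Helper18.EW

open Finset
open Pool.Agent.Helper43.Hw (T na va lz Play aa ac sc oo sk U Dd Sd Pn nx bb np)
open Pool.Agent.Helper43.Gm (Pri)

/-- E3 (the identity). As H3 (`Pool/Agent/Helper32/Hw/H3.lean`), for arbitrary loads. Let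
`rem c = T μ - ∑_{z < y} va c z`. For `c < κ y` it is the sum from `y` on, given by H2 (for dead points everything is
`0`, also the `U`-sum: `U t ≥ R - ac - μ > w`); for `κ y < c < N` it is `T μ - T (y + μ - R) = (w+1) * na y + T w`;
summing, with `f = N - 1 - κ y`:
`N * T μ - ∑_{z<y} lz z = (w+1) * lz y - (oo - f) * T w + Dd - Sd + rk`, `rk = rem (κ y) - (w+1) * x y`.
First part: `rk ≤ T w` as `va (κ y) z ≥ na z`. Second part (`J < ac (κ y)`): for `z < ac` the moving point gives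
`na z`; for `ac ≤ z < y` it gives `x z = na z + u z` with `u z ≤ u y = x y - na y` (`inc`), and `u z = 0` unless `z` is
counted in `kk`; so `rem ≥ (w+1) * na y + T w - kk * u y` and `rk ≥ T w - (w + 1 + kk) * u y`. -/
def GoalE3 : Prop := ∀ (μ R N : ℕ) (κ x : ℕ → ℕ) (y : ℕ), 1 ≤ μ → μ + 2 ≤ R → Play μ R N κ x →
  y < R → κ y < N → R ≤ y + 1 + μ →
  (oo μ R κ x y * T (R - 1 - y) + N * T μ ≤
    Dd μ R κ x y + (N - κ y) * T (R - 1 - y) + ∑ z ∈ range y, lz μ R N κ x z +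
      (R - y) * lz μ R N κ x y) ∧
  (R - 1 - μ < ac R κ x (κ y) →
    Dd μ R κ x y + (N - κ y) * T (R - 1 - y) + ∑ z ∈ range y, lz μ R N κ x z +
      (R - y) * lz μ R N κ x y ≤
    Sd μ R κ x y + oo μ R κ x y * T (R - 1 - y) + N * T μ +
      (R - y + kk μ R κ x y) * (x y - na μ R y))

/-- E5 (the greedy play exists, continuing a given beginning). As H5 (`Pool/Agent/Helper54/Hw/H5.lean`).
Induction on the number of rows: step from `y ≥ Y` to `y + 1 ≤ R - 2`, `κ y < N` (if `κ y = N`: `κ = N`, `x = 0`):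
`S = ∑_{c < κ y} va c (y+1)`, `a = na (y+1) ≤ μ - 1`, `nx ≤ μ`. If `bb = S + (N-1-κ) * a + nx ≥ L (y+1)`: take
`(κ, nx)` if `nx < μ`, otherwise `κ + 1` and `x = a` (`0` if `κ + 1 = N`); the load is `bb` in all cases.
If `bb < L (y+1)`: `X = L (y+1) - S - (N-1-κ) * a > nx`. If `X < μ`: `(κ, X)`, load `L (y+1)`. If `X ≥ μ`:
`j = (X - a) / (μ - a) ≥ 1`, so `a ≤ X - j (μ - a) < μ`; if `κ + j < N` take `κ + j` and
`x = X - j (μ - a)`, load `L (y+1)`; else `κ = N, x = 0`, load `S + (N - κ) * μ ≤ L (y+1)`. Last row: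
`κ (R-1) = κ (R-2)`, `x (R-1) = μ` (`0` if `κ = N`). Here all the rows `y ≤ Y` are given. -/
def GoalE5 : Prop := ∀ (μ R N Y : ℕ) (L κ0 x0 : ℕ → ℕ), 1 ≤ μ → μ + 2 ≤ R → Y + 2 ≤ R →
  Pre μ R N Y κ0 x0 →
  ∃ κ x : ℕ → ℕ, (∀ y ≤ Y, κ y = κ0 y ∧ x y = x0 y) ∧ Play μ R N κ x ∧ Gr μ R N Y L κ x

/-- E6a (number of the old points alive). As H6(a) (`Pool/Agent/Helper38/Hw/H6.lean`). Old points alive at `Y`
have `Y < ac + μ`. Those with `2 (ac + μ - Y) ≥ μ` give `2 va ≥ μ` to the row `Y` (H1.6), so their number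
`n1` has `μ n1 ≤ 2 ℓ Y`. The others: let `y' = Y - (μ+1)/2 ≥ ac`; they are old at `y'`, or `c = κ y'`; the
old ones give to `y'` at least `ac + μ - y' > (μ+1)/2 - 1`, so `2 va ≥ μ`, and `μ n2 ≤ 2 ℓ y' + μ`; `ℓ` is increasing. -/
def GoalE6a : Prop := ∀ (μ R N β : ℕ) (ℓ κ x : ℕ → ℕ) (Y : ℕ), 1 ≤ μ → μ + 2 ≤ R → Len R β ℓ →
  Play μ R N κ x → Y < R → (∀ z ≤ Y, lz μ R N κ x z ≤ ℓ z) →
  μ * oo μ R κ x Y ≤ 4 * ℓ Y + μ

/-- E6 (before the zone). As H6 (`Pool/Agent/Helper38/Hw/H6.lean`). `Q = κ μ + x`; `na = 0` here.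
(b) `va ≤ μ`, `x y < μ`, points `> κ y` give nothing. (c) H4(1). (d) By (b), (c) `Q` grows by at least `1 + oo > ℓ y / μ`
in the row step `y → y + 1`, `4 ℓ y ≥ β R` (`2 y ≥ R`, `Len.lo`), so `Q (z + l) - Q z > l β R / (4 μ) ≥ μ`, and
`x (z + l) < μ`. (e) `μ aa z' ≤ Q z' + μ`, `Q z ≤ μ aa z`, `Q z' - Q z = ∑_{z ≤ y < z'} (ℓ (y+1) - ℓ y + oo + sk)`;
`ℓ (y+1) - ℓ y = β` (`1 ≤ z`), `∑ oo ≤ (z' - z) (4.08 β R / μ + 1)` by E6a and `hi`, `∑ sk ≤ (z' - z) + μ` (a row `t` is counted for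
at most one `y`, and `t < y`, `y = μ + t - x t < μ + t`, so `z < t + μ`). Hence
`μ² (aa z' - aa z) ≤ (z' - z) (β μ + 4.08 β R + 2 μ) + 2 μ² ≤ 5 (z' - z) β R + 2 μ²` (`R ≥ 100 μ`, `β ≥ 1`). Multiply
by `l`, use `l β R ≤ 8 μ²`. -/
def GoalE6 : Prop := ∀ (μ R N β : ℕ) (ℓ κ x : ℕ → ℕ) (Y : ℕ), 1 ≤ μ → 100 * μ ≤ R → Len R β ℓ →
  Play μ R N κ x → Ex μ R N ℓ κ x Y → Y + 1 + μ ≤ R →
  (∀ y ≤ Y, ℓ y < μ * (oo μ R κ x y + 1)) ∧
  (∀ y < Y, κ (y + 1) * μ + x (y + 1) + ℓ y =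
    κ y * μ + x y + ℓ (y + 1) + oo μ R κ x y + sk μ κ x y) ∧
  (∀ l z, R ≤ 2 * z → z + l ≤ Y → 4 * μ ^ 2 ≤ l * (β * R) → κ z < κ (z + l)) ∧
  (∀ l z z', 1 ≤ z → z ≤ z' → z' ≤ Y → l * (β * R) ≤ 8 * μ ^ 2 →
    l * (aa κ x z' - aa κ x z) ≤ 40 * (z' - z) + 2 * l)

/-- E1 (the play until the row `J`). Take the play of E5 with `Y = 0`, `κ0 0 = ℓ 0 / μ`, `x0 0 = ℓ 0 % μ`, `L = ℓ`
(`ℓ 0 / μ < N`: `N T μ = ∑ ℓ - K T μ - W ≥ μ ℓ J - K μ² - |W| ≥ 3 μ³ / l`, while `ℓ 0 ≤ β R / 100 ≤ 8 μ² / (100 l)`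
would give `N T μ ≤ ℓ 0 μ` if `N μ ≤ ℓ 0`). Then `lz 0 = ℓ 0`. By induction all the rows `y ≤ J` are exact and `κ y < N`: for
`y + 1 ≤ J`, H4(4) gives `bb y ≤ lz y + 1 = ℓ y + 1 ≤ ℓ (y+1)` (`na (y+1) = 0`), so by the greedy rule
`lz (y+1) = ℓ (y+1)`, or `κ (y+1) = N` and `lz (y+1) ≤ ℓ (y+1)`. It remains to exclude `κ r = N` for a (first) row
`r ≤ J` (with `lz ≤ ℓ` on the rows `≤ r`). After `r` an old point with the value `v` at `r` gives at most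
`v - 1, v - 2, …` (H1.7), in total `≤ v (v - 1) / 2 ≤ v μ / 2`; so `∑_{z > r} lz z ≤ ℓ r μ / 2` and by H2 (total)
`N T μ ≤ ∑_{z ≤ r} ℓ z + ℓ r μ / 2`. As `∑ ℓ = (N + K) T μ + W`: `∑_{z > r} ℓ z ≤ ℓ r μ / 2 + K T μ + |W|`. The left side
is at least `μ ℓ J` (`R - 1 - J = μ` rows, `ℓ` increasing), `ℓ r ≤ ℓ J`, so `μ ℓ J ≤ 2 K μ² + 2 |W|`. But
`ℓ J ≥ β (J - 1/2) ≥ 0.9 β R ≥ 3.6 μ² / l`, `K l ≤ μ / 2^31` (Par), `l |W| ≤ μ³ / 2^10`: contradiction. -/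
def GoalE1 : Prop := ∀ (μ R N K b l Lg q β : ℕ) (ℓ : ℕ → ℕ) (W : ℤ), Par μ R K b l Lg q →
  Len R β ℓ → 4 * μ ^ 2 ≤ l * (β * R) → l * (β * R) ≤ 8 * μ ^ 2 →
  (∑ z ∈ range R, (ℓ z : ℤ) = (N + K) * T μ + W) → 2 ^ 10 * l * |W| ≤ (μ : ℤ) ^ 3 →
  ∃ κ x : ℕ → ℕ, Play μ R N κ x ∧ Ex μ R N ℓ κ x (R - 1 - μ)

/-- E2 (stopping a play at a row `τ ≤ J` at which a point becomes old: all the points which are not old
stay natural). The new play has `κ2 y = κ y`, `x2 y = x y` for `y < τ`, `κ2 y = κ τ`, `x2 y = na y` for `y ≥ τ`. `Play` is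
checked field by field (`na (y+1) = na y + 1` if `na y > 0`; `na (R-1) = μ`; at `y = τ - 1` `κ` jumps). Loads: `va c z`
depends only on the rows `≤ z`; at `τ`: `na τ = 0`, the old points give the same, `x2 τ = 0`. -/
def GoalE2 : Prop := ∀ (μ R N τ : ℕ) (κ x : ℕ → ℕ), 1 ≤ μ → μ + 2 ≤ R → Play μ R N κ x →
  1 ≤ τ → τ + 1 + μ ≤ R → κ (τ - 1) < κ τ → κ τ < N →
  Play μ R N (fun y => if y < τ then κ y else κ τ) (fun y => if y < τ then x y else na μ R y) ∧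
  (∀ z < τ, lz μ R N (fun y => if y < τ then κ y else κ τ)
    (fun y => if y < τ then x y else na μ R y) z = lz μ R N κ x z) ∧
  lz μ R N (fun y => if y < τ then κ y else κ τ)
    (fun y => if y < τ then x y else na μ R y) τ + x τ = lz μ R N κ x τ

/-- E4 (choice of the row `τ`). By E6(d) with `z = J - 2^q v` (`2 z ≥ R` since `2^q v ≤ b l ≤ μ`) there is a row
`τ`, `z < τ ≤ z + l`, with `κ (τ - 1) < κ τ` (`z + l ≤ J`: `l ≤ 2^q v`, as `b l ≤ 640 * 2^q v`, `b ≥ 2^40`); apply E2.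
`κ τ < N`: `Ex` at `J`, `κ` monotone. The last two claims: `lz2 τ + x τ = lz τ = ℓ τ`, `x τ < μ`. -/
def GoalE4 : Prop := ∀ (μ R N K b l Lg q β v : ℕ) (ℓ κ x : ℕ → ℕ), Par μ R K b l Lg q →
  Len R β ℓ → 4 * μ ^ 2 ≤ l * (β * R) → l * (β * R) ≤ 8 * μ ^ 2 → 1 ≤ v →
  320 * (2 ^ q * v) ≤ b * l → b * l ≤ 640 * (2 ^ q * v) →
  Play μ R N κ x → Ex μ R N ℓ κ x (R - 1 - μ) →
  ∃ (τ : ℕ) (κ2 x2 : ℕ → ℕ), Ph μ R N K b l Lg q β v τ R ℓ κ2 x2 ∧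
    lz μ R N κ2 x2 τ ≤ ℓ τ ∧ ℓ τ < lz μ R N κ2 x2 τ + μ

/-- E7 (natural deaths). As H7 (`Pool/Agent/Helper87/Hw/H7.lean`). `v1 = 2^q v`; `l` is tiny compared with `v1`
(`b l ≤ 640 v1`, `b ≥ 2^40`), `v1` tiny compared with `μ`. For `k` with `v1 ≤ k l`, `(k+2) l ≤ w`
let `z = J - (k+1) l ≥ J - w ≥ R/2`, `c_k = κ z`. E6(d) (rows `≤ τ - 1`; `z + l = J - k l ≤ J - v1 ≤ τ - 1`):
`κ (z-l) < c_k < κ (z+l)`, so `z - l < ac (c_k)` (`aa (z-l) ≤ κ (z-l) + 1 ≤ c_k`), `ac ≤ sc ≤ z + l = J - k l`. So `c_k`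
is old and alive at `y` (`ac + μ > J - w + μ = y`) and gives `T (J - ac) ≥ T (k l) ≥ (k l)² / 2` to `Dd`; the `c_k` are
distinct. With `k0 = ⌈v1 / l⌉ ≤ w/(4l) + 1`, `k1 = w / l - 2`, `∑_{k0 ≤ k ≤ k1} k² ≥ (k1³ - (k0-1)³) / 3`
(`k² ≥ (k³ - (k-1)³)/3`), and with `X = w / l` (real, `≥ 10^9`): `k1 ≥ X - 3`, `k0 - 1 ≤ X / 4`, so
`8 l Dd ≥ 4 l³ * 0.327 X³ ≥ w³`. -/
def GoalE7 : Prop := ∀ (μ R N K b l Lg q β v τ s : ℕ) (ℓ κ x : ℕ → ℕ) (y : ℕ),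
  Ph μ R N K b l Lg q β v τ s ℓ κ x → y < R → R ≤ y + 1 + μ → 4 * (2 ^ q * v) < R - 1 - y →
  (R - 1 - y) ^ 3 ≤ 8 * l * Dd μ R κ x y

/-- En (number of the ordinary points started in the last rows before `J`). `ac c ≤ z` iff `c < aa z`
(H1), for `z < R`. `aa J = κ τ` (`x J = na J = 0`), and `aa z = κ τ` for `τ ≤ z ≤ J`, so
`np X = aa J - aa (J - X)`; it is `0` if `τ ≤ J - X`. Otherwise compare with the play of the rows `< τ`: the row `τ - 1`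
is exact, and `κ τ - aa (J - X)` has to be bounded: `μ (κ τ) ≤ ℓ`-growth. Precisely with `Q = κ μ + x`, H4(1) for the
row step `τ - 1 → τ` gives `Q τ + ℓ (τ-1) = Q (τ-1) + lz τ + oo + sk` (`x τ = 0`; here `lz τ` instead of
`ℓ τ`), with `lz τ ≤ ℓ τ` by hypothesis; so the computation of E6(e) applies with `z' = τ` (loads `≤ ℓ` on the rows
`≤ τ` suffice for E6a, and `≤` instead of `=` in the last step):
`l (κ τ - aa z) ≤ 40 (τ - z) + 2 l` for `z ≤ τ - 1`. (If `z = J - X ≤ τ - 1` then `τ - z ≤ X`.) -/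
def GoalEn : Prop := ∀ (μ R N K b l Lg q β v τ s : ℕ) (ℓ κ x : ℕ → ℕ),
  Ph μ R N K b l Lg q β v τ s ℓ κ x → lz μ R N κ x τ ≤ ℓ τ →
  (∀ z, 1 ≤ z → z ≤ τ → l * (κ τ - aa κ x z) ≤ 40 * (τ - z) + 2 * l) ∧
  ∀ X ≤ μ, l * np μ R N κ x X ≤ 40 * X + 2 * l

/-- E8a (the rest `Γ t = ℓ t - lz t` which the special points have to take, rows `τ ≤ t ≤ J`; the play is
stopped for ever, `s = R`). By H4(1) for `τ ≤ t < J`: `lz (t+1) + oo + sk = lz t`, so `Γ` grows by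
`ℓ (t+1) - ℓ t + oo + sk ≥ 1 + oo` (in particular `lz ≤ ℓ`). Upper bound: `ℓ (t+1) - ℓ t = β`, `μ oo t ≤ 4.08 β R + μ` (E6a),
`∑_{τ ≤ t < J} sk t ≤ v1 + μ` (every row is counted at most once, and it is `> τ - μ` and `< J`), so
`Γ J ≤ μ + v1 (β + 4.08 β R / μ + 1) + v1 + μ ≤ 2 μ + 5 v1 β R / μ ≤ 2 μ + 40 μ v1 / l ≤ 2 μ + b μ / 8 ≤ b μ / 4`
(`100 μ ≤ R`, `l β R ≤ 8 μ²`, `320 v1 ≤ b l`, `b ≥ 2^40`). Lower bound of the growth: `lz t ≤ μ oo t` (`t ≤ J`: only old points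
give something), so `μ (oo + 1) ≥ ℓ t - Γ t ≥ 0.9 β R - b μ / 4 ≥ 3.6 μ² / l - μ² / (4 l)`
(`ℓ t ≥ β (t - 1/2)`, `t ≥ J - v1 ≥ 0.98 R`; `b l ≤ μ`), which gives `16 l * (growth) ≥ μ`. -/
def GoalE8a : Prop := ∀ (μ R N K b l Lg q β v τ : ℕ) (ℓ κ x : ℕ → ℕ),
  Ph μ R N K b l Lg q β v τ R ℓ κ x → lz μ R N κ x τ ≤ ℓ τ → ℓ τ < lz μ R N κ x τ + μ →
  (∀ t, τ ≤ t → t + 1 + μ ≤ R → lz μ R N κ x t ≤ ℓ t ∧
    4 * (ℓ t - lz μ R N κ x t) ≤ b * μ) ∧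
  (∀ t, τ ≤ t → t + 2 + μ ≤ R →
    μ + 16 * l * (ℓ t - lz μ R N κ x t) ≤ 16 * l * (ℓ (t + 1) - lz μ R N κ x (t + 1)))

/-- E8b (the same for the rows `J ≤ t < J + μ / 400`). Let `g = κ τ`, `Γ t = ℓ t - lz t`. By H4(1) for `t ≥ J`
(`na (t+1) = na t + 1`): `lz (t+1) + oo + sk = lz t + (N - g)`, so `Γ (t+1) - Γ t = β + oo + sk - (N - g)`.
At `J` (`R - 1 - J = μ`, `x J = na J = 0`, `J < ac g` because `aa z ≤ g` for `z ≤ J`) E3(2) says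
`Dd + (N - g) T μ + ∑_{z<J} lz z + (μ+1) lz J ≤ Sd + oo T μ + N T μ`. Here
`∑_{z<J} ℓ z + (μ+1) ℓ J + β T μ = ∑_{z<R} ℓ z = (N + K) T μ + W`, and
`∑_{z<J} lz z + (μ+1) lz J = ∑_{z<J} ℓ z + (μ+1) ℓ J - ∑_{τ≤z<J} Γ z - (μ+1) Γ J`, where
`∑ Γ + (μ+1) Γ J ≤ (v1 + μ + 1) b μ / 4 ≤ K T μ` (`v1 ≤ μ`, E8a). So
`(β + oo J - (N - g)) T μ ≥ Dd J - Sd J + W`. By E7 `8 l Dd J ≥ μ³`; `Sd J ≤ μ²` (counted rows have
`J - t + x t = U t ≤ μ`, so `t > J - μ`); `2^10 l |W| ≤ μ³`; so the right side times `l` is at least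
`μ³ / 8 - l μ² - μ³ / 2^10 ≥ μ³ / 9`, and (`T μ ≤ 0.51 μ²`) `5 l (β + oo J - (N - g)) ≥ μ`. For
`J ≤ t ≤ J + μ/400` the old points alive at `J` and dead at `t` have `J - μ < ac ≤ t - μ`; their number is
`≤ aa (t - μ) - aa (J - μ)`, by E6(e) (rows `≤ τ - 1`) `l * number ≤ 40 (t - J) + 2 l ≤ μ/10 + 2 l`. So
`16 l (Γ (t+1) - Γ t) ≥ 16 (μ/5 - μ/10 - 2 l) ≥ μ`. The second claim follows from the first (and E8a). -/
def GoalE8b : Prop := ∀ (μ R N K b l Lg q β v τ : ℕ) (ℓ κ x : ℕ → ℕ) (W : ℤ),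
  Ph μ R N K b l Lg q β v τ R ℓ κ x → lz μ R N κ x τ ≤ ℓ τ → ℓ τ < lz μ R N κ x τ + μ →
  (∑ z ∈ range R, (ℓ z : ℤ) = (N + K) * T μ + W) → 2 ^ 10 * l * |W| ≤ (μ : ℤ) ^ 3 →
  (∀ t, R ≤ t + 1 + μ → t < R - 1 - μ + μ / 400 →
    μ + 16 * l * ℓ t + 16 * l * lz μ R N κ x (t + 1) ≤
      16 * l * ℓ (t + 1) + 16 * l * lz μ R N κ x t) ∧
  (∀ t, R ≤ t + 1 + μ → t ≤ R - 1 - μ + μ / 400 → lz μ R N κ x t ≤ ℓ t)

/-- GA (unit steps). Let `S P = ∑_{i < k} (μ - P / e i)`. `S` is antitone, `S 0 = k μ`, and `S P ≤ S (P+1) + 1`: a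
summand changes from `P` to `P + 1` (by one) only if `e i` divides `P + 1` and `(P+1) / e i ≤ μ`, and this happens for
at most one `i` by hypothesis. Let `P'` be the least `P` with `S P ≤ g` (`P' ≤ P0`, `P' ≥ 1` as `S 0 > g`):
`S (P'-1) > g`, so `S P' = g`, and some `e i` divides `P'`, so `P'` is even, `P' < P0`; `P = P' + 1` is odd,
`S P = S P'` (an even number does not divide an odd one). -/
def GoalGA : Prop := ∀ (μ k : ℕ) (e : ℕ → ℕ) (P0 g : ℕ), (∀ i < k, 0 < e i ∧ 2 ∣ e i) →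
  (∀ i < k, ∀ j < k, i ≠ j → ∀ a c, 1 ≤ a → a ≤ μ → 1 ≤ c → c ≤ μ → a * e i ≠ c * e j) →
  Odd P0 → ∑ i ∈ range k, (μ - P0 / e i) ≤ g → g < k * μ →
  ∃ P, Odd P ∧ P ≤ P0 ∧ ∑ i ∈ range k, (μ - P / e i) = g

/-- GE (the special points exist). `K = b (q+1)`. The points `0 … b-1` start at `τ` or `τ + 1`, the points
`j b … (j+1) b - 1` start at the row `r_j = J - 2^(q-j) v` (`1 ≤ j ≤ q`; `r_1 < r_2 < …`, `τ + 2 ≤ r_1`).
Let `M = 2 (μ+1)^(K+1)`; all the slopes satisfy `e i % M = 2 (μ+1)^i`. Then they are even and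
`a e i ≠ c e j` for `i ≠ j`, `1 ≤ a, c ≤ μ` (mod `M`: `2 a (μ+1)^i = 2 c (μ+1)^j`, both `< M`, impossible). Every
interval `(lo, lo + M]` contains such a number. `E` is a large number (`E ≥ 16 μ M`).
First batch: `e i ∈ (E - M, E]`, `i < b`. Row `τ`: by GA with `k = b`, `P0` odd, `P0 ∈ {μ E, μ E + 1}` (there the sum is
`0`), `g = Γ τ < b μ`: `P τ ≤ μ E + 1`. Let `k(t) = b (1 + #{j : 1 ≤ j ≤ q, r_j ≤ t})` (points started or to be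
started at `t`). Induction on the rows, `s` is the first row with `K μ ≤ Γ s`
(`J < s ≤ S`, as `4 Γ J ≤ b μ`, `Γ` increasing). Step `t → t + 1 < s`. `S_t P = ∑_{i<k(t)} (μ - P / e i)`, `S_t (P t) = Γ t`.
We have `E ≤ P t`: otherwise all `P t / e i ≤ 1`, `Γ t ≥ k(t) (μ-1)`, which is `> b μ / 4` if `t ≤ J`, and if `t > J`
(`k(t) = K`) `Γ (t+1) ≥ K (μ - 1) + 4 K`, contradiction to `t + 1 < s`. As `E ≤ 2 e i`:
`S_t (P t - E) ≤ Γ t + 2 K ≤ Γ (t+1) - b`. If `t + 1` is no start: GA with `P0 = P t - E` (it is odd: take `E` even),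
`g = Γ (t+1) < k(t) μ` (if `k(t) < K` then `t + 1 ≤ J`, `4 Γ (t+1) ≤ b μ`). If `t + 1 = r_j`: GA with `g = Γ (t+1) - b`
gives `P' = P (t+1)`, and the new slopes are chosen with `P' < μ e i`, `(μ-1) e i ≤ P'` (so `P' / e i = μ - 1`, and
the new points give `1` each): the interval `(P'/μ, P'/(μ-1)]` is long enough because `2 P' ≥ μ E`
(`4 ∑_{i<b} (μ - P'/e i) ≤ 4 Γ J ≤ b μ` so for some `i < b` `4 (P' / e i) ≥ 3 μ`, `e i > E - M`), `E ≥ 16 μ M`; also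
`E ≤ 2 e i`; `e i ≤ E` since `P' ≤ (μ-1) E` (`P' ≤ P (τ+1) - E`, `P (τ+1) ≤ μ E + 1 - E`); and for the rows `t' ≤ t`:
`P t' ≥ P t ≥ P' + E ≥ μ e i`, so the new points are not started there. For the first batch:
`P (τ+1) ≤ (μ - 1) E + 1 < μ e i`. No `e i` (even) divides `P t` (odd). For `t < r_j` the summands of the batch `j` are `0`. -/
def GoalGE : Prop := ∀ (μ b q τ J S v : ℕ) (Γ : ℕ → ℕ), 2 ≤ μ → 1 ≤ b → 1 ≤ v → τ < J → J < S →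
  (∀ j, 1 ≤ j → j ≤ q → τ + 2 + 2 ^ (q - j) * v ≤ J) →
  (∀ t, τ ≤ t → t < S → Γ t + 4 * (b * (q + 1)) ≤ Γ (t + 1)) →
  b * (q + 1) * μ ≤ Γ S → 4 * Γ J ≤ b * μ →
  ∃ (s E : ℕ) (e P : ℕ → ℕ), J < s ∧ s ≤ S ∧
    (∀ t, τ ≤ t → t < s → Γ t < b * (q + 1) * μ) ∧ b * (q + 1) * μ ≤ Γ s ∧
    (∀ i < b * (q + 1), 0 < e i ∧ e i ≤ E ∧ E ≤ 2 * e i) ∧
    (∀ i < b * (q + 1), ∀ t, τ ≤ t → t < s → ¬ e i ∣ P t) ∧
    (∀ t, τ ≤ t → t + 1 < s → P (t + 1) + E ≤ P t) ∧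
    (∀ t, τ ≤ t → t < s → ∑ i ∈ range (b * (q + 1)), (μ - P t / e i) = Γ t) ∧
    (∀ i < b, P (τ + 1) / e i < μ) ∧
    (∀ j, 1 ≤ j → j ≤ q → ∀ i, j * b ≤ i → i < (j + 1) * b → ∀ t, τ ≤ t → t < s →
      (P t / e i < μ ↔ J ≤ t + 2 ^ (q - j) * v))

/-- G1 (a special point is a play with one point). For `τ ≤ t`, `t + 1 < s`: `P (t+1) / e i + 1 ≤ P t / e i`
(`e i ≤ E`, `dr`); for `t + 1 < s` also `1 ≤ P t / e i`; for `t = s - 1 < gs`: `e i ≤ P (s-1)`. `nat`: `P J / e i < μ` (`ma`), so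
`P y / e i + (y - J) < μ` for `J ≤ y < gs i ≤ s`, `gx y ≥ y - J + 1 > na y`. `inc`: if `0 < μ - P y / e i` then
`P (y+1) / e i < P y / e i < μ`. `gs ≥ s - 1 ≥ J`, `gs ≤ s ≤ R - 2`. Second part: the first row at which the point has
started (`aa > 0`, i.e. `0 < gx` or `gk = 1`) is the first `t ≥ τ` with `P t / e i < μ` (`t ≤ J` by `ma`; if `s - 1 = J = gs`
then the row `J` is old, also started). Third part: before `τ` the value is `0`, in the rows `τ ≤ z < s` it is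
`μ - P z / e i` (if `gs = s - 1`, `z = s - 1`: the value is `μ` (H1.4), and `P z < e i`), and it is `≤ μ` everywhere. -/
def GoalG1 : Prop := ∀ (μ R K τ s E : ℕ) (e P : ℕ → ℕ), 1 ≤ μ → Grp μ R K τ s E e P → ∀ i < K,
  Play μ R 1 (gk s e P i) (gx μ τ s e P i) ∧
  (τ ≤ ac R (gk s e P i) (gx μ τ s e P i) 0 ∧ ac R (gk s e P i) (gx μ τ s e P i) 0 ≤ R - 1 - μ ∧
    ∀ t, τ ≤ t → t < s → (ac R (gk s e P i) (gx μ τ s e P i) 0 ≤ t ↔ P t / e i < μ)) ∧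
  ((∀ z < τ, va μ R (gk s e P i) (gx μ τ s e P i) 0 z = 0) ∧
    (∀ z, τ ≤ z → z < s → va μ R (gk s e P i) (gx μ τ s e P i) 0 z = μ - P z / e i) ∧
    ∀ z < R, va μ R (gk s e P i) (gx μ τ s e P i) 0 z ≤ μ)

/-- G2 (loads and identities of the special points). Sums over `i < K` of facts about the plays of G1 with one
point (`lz μ R 1 κ x z = va μ R κ x 0 z`; in the rows `y ≥ s` we have `gk = 1`). First part: G1; total: H2.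
Second: H4(3) (`κ y = 1 = N`). Third: H2(1) if the point is alive at `y`, H2(2) if it is dead (then `oo = Dd = 0`,
`va = 0`, and `Sd = 0` because `U t ≥ R - ac - μ > w` (H1.5)). -/
def GoalG2 : Prop := ∀ (μ R K τ s E : ℕ) (e P : ℕ → ℕ), 1 ≤ μ → Grp μ R K τ s E e P →
  ((∀ z < τ, gV μ R K τ s e P z = 0) ∧
    (∀ z, τ ≤ z → z < s → gV μ R K τ s e P z = ∑ i ∈ range K, (μ - P z / e i)) ∧
    (∀ z < R, gV μ R K τ s e P z ≤ K * μ) ∧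
    ∑ z ∈ range R, gV μ R K τ s e P z = K * T μ) ∧
  (∀ y, s ≤ y → y + 1 < R →
    gV μ R K τ s e P (y + 1) + gO μ R K τ s e P y + gK μ K τ s e P y = gV μ R K τ s e P y) ∧
  (∀ y, s ≤ y → y < R →
    ∑ z ∈ Ico y R, gV μ R K τ s e P z + gO μ R K τ s e P y * T (R - 1 - y) + gS μ R K τ s e P y =
      (R - y) * gV μ R K τ s e P y + gD μ R K τ s e P y)

/-- G5 (deaths and skips of the special points). Let `a i = ac` (G1: `τ ≤ a i ≤ J`). In the rows `y ≥ s` the point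
`i` is old, and alive iff `y < a i + μ` (H1.6), i.e. iff `J < a i + w + 1 …`, precisely
`R - 1 - μ < a i + (R - 1 - y)`. (1) So `gO y = gN (R - 1 - y)`, which gives equality.
(2) A point alive at `y` has `J - a i < w`, so it gives at most `T w` to `gD`, and it is counted in `gN w`. (3) clear.
(4) Every summand `U t` of `Sd` is `≤ w`, and it is counted in `gQ w` (`t < gs i ≤ s`). (5) A row `t` counted in
`gK j` has `μ + t = x t + j`, i.e. `U t = R - 1 - j ≤ w`; it is counted for one `j` only. -/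
def GoalG5 : Prop := ∀ (μ R K τ s E : ℕ) (e P : ℕ → ℕ), 1 ≤ μ → Grp μ R K τ s E e P →
  (∀ y, s ≤ y → y < R → gO μ R K τ s e P y = gN μ R K τ s e P (R - 1 - y)) ∧
  (∀ y, s ≤ y → y < R →
    gD μ R K τ s e P y ≤ T (R - 1 - y) * gN μ R K τ s e P (R - 1 - y)) ∧
  (∀ X, gN μ R K τ s e P X ≤ K) ∧
  (∀ y, s ≤ y → y < R → gS μ R K τ s e P y ≤ (R - 1 - y) * gQ μ R K τ s e P (R - 1 - y)) ∧
  (∀ y, s ≤ y → y < R →
    ∑ j ∈ Ico y (R - 1), gK μ K τ s e P j ≤ gQ μ R K τ s e P (R - 1 - y))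

/-- G7 (few skips of the special points near the end). For `τ ≤ t`, `t + 1 < s`, `D = P t - P (t+1)`: the growth
of `∑ (μ - P t / e i)` is at most `∑ (P t / e i - P (t+1) / e i) ≤ ∑ (D / e i + 1) ≤ K (2 D / E + 1)` (`E ≤ 2 e i`), and it is
at least `μ / (16 l)`. As `μ ≥ 32 l K`: `64 l K D ≥ μ E`. For one point `i` let `t1 < t2` be the first and the last row
counted in `gQ`. `U t = R - 1 - t - P t / e i` for the counted rows (`gx t = μ - P t / e i > 0`; natural subtraction, `U t2 ≤ w`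
and `U t1 ≥ 0` as integers: `R - 1 - t1 ≥ P t1 / e i` follows from `U t1 + P t1 / e i + t1 + 1 ≥ R` for natural
subtraction and `P t / e i ≤ R - 1 - t`, which holds as `P t / e i < μ ≤ R - 1 - t` for `t ≤ J` and
`P t / e i + (t - J) < μ` for `t ≥ J`). So
`w ≥ U t2 - U t1 ≥ (P t1 - P t2) / e i - 1 - (t2 - t1) ≥ (t2 - t1) (μ / (64 l K) - 1) - 1`
`≥ (t2 - t1) μ / (128 l K) - 1` (here `μ ≥ 128 l K`), so the number of counted rows is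
`≤ t2 - t1 + 1 ≤ 1 + 128 l K (w + 1) / μ`. Sum over `i < K`. -/
def GoalG7 : Prop := ∀ (μ R K τ s E l w : ℕ) (e P : ℕ → ℕ), 1 ≤ μ → 1 ≤ l → Grp μ R K τ s E e P →
  128 * l * K ≤ μ →
  (∀ t, τ ≤ t → t + 1 < s → μ + 16 * l * ∑ i ∈ range K, (μ - P t / e i) ≤
    16 * l * ∑ i ∈ range K, (μ - P (t + 1) / e i)) →
  μ * gQ μ R K τ s e P w ≤ μ * K + 128 * l * K ^ 2 * (w + 1)

/-- G8 (deaths of the special points). Let `a i = ac`, `v1 = 2^q v`. By G1 and the last hypothesis `a i = J - 2^(q-j) v` for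
the points `j b ≤ i < (j+1) b`, `1 ≤ j ≤ q`; for `i < b`: `τ ≤ a i ≤ τ + 1`, so
`v1 / 2 ≤ v1 - l - 1 ≤ J - a i < v1`. Let `y ≥ s`, `w = R - 1 - y`. A point with `J - a i < w` is alive at `y` and gives
`T (J - a i)` to `gD y`. If `v < w ≤ v1`: let `2^k v < w ≤ 2^(k+1) v`, `0 ≤ k < q`; the batch `j = q - k` gives
`b T (2^k v) ≥ b (w/2)² / 2`. If `v1 < w ≤ 4 v1`: the first batch gives `≥ b (v1/2)² / 2 ≥ b w² / 128`. -/
def GoalG8 : Prop := ∀ (μ R b q τ s E v l y : ℕ) (e P : ℕ → ℕ), 1 ≤ μ → 1 ≤ v → 1 ≤ b →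
  Grp μ R (b * (q + 1)) τ s E e P → R - 1 - μ < τ + 2 ^ q * v → τ + 2 ^ q * v ≤ R - 1 - μ + l →
  2 * l + 2 ≤ 2 ^ q * v → (∀ i < b, P (τ + 1) / e i < μ) →
  (∀ j, 1 ≤ j → j ≤ q → ∀ i, j * b ≤ i → i < (j + 1) * b → ∀ t, τ ≤ t → t < s →
      (P t / e i < μ ↔ R - 1 - μ ≤ t + 2 ^ (q - j) * v)) →
  s ≤ y → y < R → v < R - 1 - y → R - 1 - y ≤ 4 * (2 ^ q * v) →
  b * (R - 1 - y) ^ 2 ≤ 128 * gD μ R (b * (q + 1)) τ s e P y

/-- E12 (the final play). `κ2, x2` on the rows `≤ s - 1` is a `Pre` (`Y = s - 1`); apply E5 with the lengths `L`.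
`va c z`, `lz z` depend only on the rows `≤ z`, so the rows `≤ s - 1` are exact. `bb (s - 1)` is the load of
the stopped play at the row `s`: the old points give the same to the row `s`, and
`nx (s-1) = na s` (`x (s-1) = na (s-1)`, `na (s-1) + 1 = na s` as `s - 1 ≥ J`; if `na (s-1) = 0` then `nx = na s` by definition). -/
def GoalE12 : Prop := ∀ (μ R N τ s : ℕ) (L κ2 x2 : ℕ → ℕ), 1 ≤ μ → μ + 2 ≤ R →
  Play μ R N κ2 x2 → 1 ≤ τ → τ < s → R < s + 1 + μ → s + 2 ≤ R → κ2 τ < N →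
  (∀ y, τ ≤ y → y < R → κ2 y = κ2 τ ∧ x2 y = na μ R y) →
  (∀ z < s, lz μ R N κ2 x2 z = L z) → lz μ R N κ2 x2 s ≤ L s →
  ∃ κ x : ℕ → ℕ, Play μ R N κ x ∧ Gr μ R N (s - 1) L κ x ∧ Ex μ R N L κ x (s - 1) ∧
    (∀ y < s, κ y = κ2 y ∧ x y = x2 y) ∧ bb μ R N κ x (s - 1) ≤ L s

/-- E13 (the special points satisfy `Ext`), `L = ℓ - gV`. `gV ≤ ℓ` everywhere by hypothesis. `inc`: `st` (Len), G2(2).
`tot`: `∑_{z<y} ℓ z + (R - y) ℓ y + β T w = ∑_{z<R} ℓ z` (`y ≥ s ≥ 1`, arithmetic progression), and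
`∑_{z<y} gV z + (R - y) gV y = K T μ + gO T w + gS - gD` by G2(3) and the total. `oa`, `dth`: G5(1) (`gN` is monotone;
equality in `dth`). `Dn`, `nK`: G5. `Sq`,
`kq`: G5(4), (5), and G7: `μ gQ w ≤ μ K + 128 l K² (w+1)` with `K = b (q+1)`, `2^31 b (q+1)² l ≤ μ`:
`128 l K² = b * (128 b (q+1)² l) ≤ b μ / 2^24`, so `2^24 gQ w ≤ 2^24 K + b (w+1)`. (`128 l K ≤ μ` by the same.) -/
def GoalE13 : Prop := ∀ (μ R N K b l Lg q β τ s E : ℕ) (ℓ e P : ℕ → ℕ) (W : ℤ), 1 ≤ μ →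
  Par μ R K b l Lg q → Len R β ℓ → Grp μ R K τ s E e P →
  (∑ z ∈ range R, (ℓ z : ℤ) = (N + K) * T μ + W) →
  (∀ z < R, gV μ R K τ s e P z ≤ ℓ z) →
  (∀ t, τ ≤ t → t + 1 < s → μ + 16 * l * ∑ i ∈ range K, (μ - P t / e i) ≤
    16 * l * ∑ i ∈ range K, (μ - P (t + 1) / e i)) →
  Ext μ R N K b β s W (fun z => ℓ z - gV μ R K τ s e P z) (gO μ R K τ s e P)
    (gK μ K τ s e P) (gD μ R K τ s e P) (gS μ R K τ s e P) (gN μ R K τ s e P)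

/-- E14 (all the deaths). `v1 = 2^q v`, `w = R - 1 - y > v`. If `w ≤ 4 v1`: G8, `b w² ≤ 128 gD`, and
`w ≤ 4 v1 ≤ b l / 80`, so `w² (b l + w) ≤ 2 l b w² ≤ 256 l gD`. If `w > 4 v1`: E7, `w³ ≤ 8 l Dd`, and
`b l ≤ 640 v1 ≤ 160 w`, so `w² (b l + w) ≤ 161 w³ ≤ 1288 l Dd`. (`2 l + 2 ≤ 2^q v` by `vc`, `b ≥ 2^40`.) -/
def GoalE14 : Prop := ∀ (μ R N K b l Lg q β v τ s E : ℕ) (ℓ κ x e P : ℕ → ℕ) (y : ℕ), 1 ≤ μ →
  Ph μ R N K b l Lg q β v τ s ℓ κ x → Grp μ R K τ s E e P → (∀ i < b, P (τ + 1) / e i < μ) →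
  (∀ j, 1 ≤ j → j ≤ q → ∀ i, j * b ≤ i → i < (j + 1) * b → ∀ t, τ ≤ t → t < s →
      (P t / e i < μ ↔ R - 1 - μ ≤ t + 2 ^ (q - j) * v)) →
  s ≤ y → y < R → v < R - 1 - y →
  (R - 1 - y) ^ 2 * (b * l + (R - 1 - y)) ≤
    4096 * l * (Dd μ R κ x y + gD μ R K τ s e P y)

end Pool.Agent.Helper18.EW
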