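import Mathlib
import Pool.Agent.Helper18.EW.Goals

/-!
# Project EW: intermediate statements (packets), part 2: the zone and the end of the game

`J = R - 1 - μ`, `w = R - 1 - y`, `X = R - 1 - z`, `f = N - 1 - κ y`. `C1 = 2 ^ 14`.
-/

set_option autoImplicit false

namespace Pool.Agent.Helper18.EW

open Finset
open Pool.Agent.Helper43.Hw (T na va lz Play aa ac sc oo sk U Dd Sd Pn nx bb np)
open Pool.Agent.Helper43.Gm (Pri)

/-- Z8 (few points become old in the zone). As H8 (`Pool/Agent/Helper79/Hw/H8.lean`). (i) An old point alive at `y` with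
`ac < J` has `J - ac < w` and is counted in `np w`: `Dd y ≤ T w * np w`; `D y ≤ T w * n w` (`Dn`).
(ii) The `oo z + (κ y - κ z)` ordinary points alive at `z` or becoming old in `(z, y]` are alive at `y`, or dead at
`y` (`ac + w ≤ J`) and `J < ac + X` (alive at `z`: `z < ac + μ`; a point becoming old after `z`: either `c > κ z`,
`ac > z ≥ J`, not dead; or `c = κ z`: `x ac + sc ≤ μ + ac`, `sc > z`): number `≤ oo y + B`, `B + np w ≤ np X`. Special:
`dth`. (iii) With `g = β + o + oo + κ - N` (integers): `g y - g z + (np X - np w) + (n X - n w) ≥ 2 (κ y - κ z)`, `g z ≥ 0`, and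
`g y * T w ≤ Dd y + D y - S y + W` by E3(1) (exact rows) and `tot`. -/
def GoalZ8 : Prop := ∀ (μ R N K b β s : ℕ) (W : ℤ) (L o k D S n κ x : ℕ → ℕ) (y z : ℕ), 1 ≤ μ →
  μ + 2 ≤ R → Ext μ R N K b β s W L o k D S n → Play μ R N κ x → Ex μ R N L κ x y → y + 2 ≤ R →
  s ≤ z → z ≤ y → N - κ z ≤ β + o z + oo μ R κ x z →
  2 * (T (R - 1 - y) : ℤ) * (κ y - κ z : ℕ) ≤
    T (R - 1 - y) * (np μ R N κ x (R - 1 - z) + n (R - 1 - z)) + W

/-- Z9 (few pending skips of the zone). As H9 (`Pool/Agent/Helper62/Hw/H9.lean`). The counted rows have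
`s ≤ t` (for `J < t < s`: `x t = na t`, `U t = 0`). For `t ≥ s`, `κ (t+1) = κ t`, `t + 1 ≤ y`, `0 < x t`, H4(1) for the exact rows and `inc` give
`x (t+1) - x t = β + o t + k t + oo t + sk t - (N - 1 - κ t)`, so (`U t = x t - na t`)
`U (t+1) - U t ≥ β + o t + oo t - (N - κ t) ≥ (b l + (R - 1 - t)) / (2^14 l)`. Let `B_c` be the rows `t` of the point
`c` that are counted, `q_c = #B_c ≥ 1`, `X = R - 1 - max B_c > w`: `(q_c - 1) (b l + X) ≤ 2^14 l w`. With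
`j = κ y - 1 - c`, `0 ≤ j < κ y - κ s`, the hypothesis at `z = max B_c` (`κ z = c`) gives `l (j + 1) ≤ 21 X + 3 K l`. If
`j + 1 ≤ 6 K`: `(q_c - 1) b ≤ 2^14 w`, and the sum of `q_c - 1` over these `j` is `≤ 6 K * 2^14 w / b ≤ 6 * 2^14 w Lg`. If `j + 1 > 6 K`:
`l (j+1) ≤ 42 X`, `(q_c - 1) (j + 1) ≤ 42 * 2^14 w`; sum over `j + 1 ≥ 2`: the harmonic sum `1/2 + … + 1/(2^Lg - 1) ≤ Lg`
gives `≤ 42 * 2^14 w Lg`. (`K ≥ 1`; sum the bounds multiplied by suitable constants, or use rational numbers.) -/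
def GoalZ9 : Prop := ∀ (μ R N K b l Lg β s y : ℕ) (W : ℤ) (L o k D S n κ x : ℕ → ℕ), 1 ≤ μ →
  μ + 2 ≤ R → 1 ≤ l → 1 ≤ b → 1 ≤ K → K ≤ b * Lg → Ext μ R N K b β s W L o k D S n →
  Play μ R N κ x → Ex μ R N L κ x y → s ≤ y → y + 2 ≤ R → Pau μ R s κ x →
  (∀ z, s ≤ z → z < y →
    b * l + (R - 1 - z) + 2 ^ 14 * l * (N - κ z) ≤ 2 ^ 14 * l * (β + o z + oo μ R κ x z)) →
  (∀ z, s ≤ z → z ≤ y → l * (κ y - κ z) ≤ 21 * (R - 1 - z) + 3 * K * l) →
  κ y - κ s < 2 ^ Lg →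
  ((range y).filter (fun t => R - 1 - μ < t ∧ κ t < κ y ∧ 0 < x t ∧ 0 < U μ R x t ∧
    U μ R x t ≤ R - 1 - y)).card ≤ (κ y - κ s) + 48 * 2 ^ 14 * (R - 1 - y) * Lg

/-- Z10a (starts and pending skips). First: for `z < y` Z8 applies (`ih` gives `N - κ z ≤ β + o z + oo z`;
`z = y` is trivial). `l np X ≤ 40 X + 2 l`, `n X ≤ K`, `l |W| ≤ w² (b l + w) / 2^14 ≤ T w (b l + X)` (`2 T w ≥ w²`, `X ≥ w`;
with room): `2 l (κ y - κ z) ≤ 40 X + 2 l + K l + (b l + X) / 2^13 ≤ 41 X + 4 K l` (`1 ≤ b ≤ K`). Second: with `z = s`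
`l (κ y - κ s) ≤ 21 μ + 3 K l ≤ 22 μ < 2^Lg l` (`R - 1 - s ≤ μ`; Par: `b2`, `hL`), so Z9 applies, and
`l (κ y - κ s) ≤ 21 μ + 3 K l`. Third: the rows `t ≤ J` counted in `Sd` have `U t = J - t + x t ≤ w`, so `J - w < t`: at most
`w`; for `J < t < s` `U t = 0` contributes nothing; the others are counted in the second statement; every summand is `≤ w`. -/
def GoalZ10a : Prop := ∀ (μ R N K b l Lg q β s : ℕ) (W : ℤ) (L o k D S n κ x : ℕ → ℕ) (y : ℕ),
  Zon μ R N K b l Lg q β s W L o k D S n κ x y →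
  (∀ z, s ≤ z → z ≤ y → l * (κ y - κ z) ≤ 21 * (R - 1 - z) + 3 * K * l) ∧
  l * ((range y).filter (fun t => R - 1 - μ < t ∧ κ t < κ y ∧ 0 < x t ∧ 0 < U μ R x t ∧
    U μ R x t ≤ R - 1 - y)).card ≤ 21 * μ + 3 * K * l + 48 * 2 ^ 14 * l * (R - 1 - y) * Lg ∧
  l * Sd μ R κ x y ≤ (R - 1 - y) *
    (l * (R - 1 - y) + 21 * μ + 3 * K * l + 48 * 2 ^ 14 * l * (R - 1 - y) * Lg)

/-- Z10b (the moving point). `J < ac (κ y)`: `aa J = κ J = κ (s-1) ≤ κ y` as `x J = na J = 0` (Pau at `t = J`). The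
rows counted in `kk y` are `≥ s` (for `z ≤ J`: `z < ac (κ y)`, so `κ z = κ y` implies `x z = 0`; for `J ≤ z < s` use
Pau), they form an interval ending at `y - 1` (`u z = x z - na z` is nondecreasing while `κ` is constant, by `inc`), and for consecutive rows
`z, z + 1 ≤ y` with `κ z = κ (z+1)`, `z ≥ s`, `0 < x z`:
`u (z+1) - u z ≥ β + o z + oo z - (N - κ z) ≥ (b l + w) / (2^14 l)` (H4(1), exact rows, `ih`). So
`kk * (b l + w) ≤ 2^14 l u y`. `u y < w`: `x y < μ`, `na y = μ - w`, `w ≥ 1`. -/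
def GoalZ10b : Prop := ∀ (μ R N K b l Lg q β s : ℕ) (W : ℤ) (L o k D S n κ x : ℕ → ℕ) (y : ℕ),
  Zon μ R N K b l Lg q β s W L o k D S n κ x y →
  R - 1 - μ < ac R κ x (κ y) ∧
  kk μ R κ x y * (b * l + (R - 1 - y)) ≤ 2 ^ 14 * l * (x y - na μ R y) ∧
  x y - na μ R y < R - 1 - y

/-- Z10 (the zone). `u = x y - na y < w`, `kk ≤ u ≤ w` by Z10b (`b ≥ 2^14`). E3(2) for the exact row `y`, with `tot`:
`(β + o + oo - (N - κ y)) T w ≥ Dd + D - Sd - S + W - (w + 1 + kk) u`. Multiply by `l`. `4096 l (Dd + D) ≥ w² (b l + w)`,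
`2^14 l |W| ≤ w² (b l + w)`, `(w + 1 + kk) u ≤ 3 w²`, Z10a for `Sd`, `2^24 S ≤ w (2^24 K + (w+1) b)`. So
`l (β + o + oo - (N - κ y)) T w ≥ 3 w² (b l + w) / 2^14 - w * H`, with
`H = l w + 21 μ + 3 K l + 48 * 2^14 l w Lg + K l + 2 w b l / 2^24 + 3 l w`. Since
`21 μ + 4 K l ≤ 22 μ ≤ 22 w (b l + w) / 2^21`, `48 * 2^14 l w Lg ≤ 48 w b l / 2^26`, `4 l w ≤ 4 w b l / 2^40`:
`H ≤ w (b l + w) / 2^14`, and the right side is `≥ w² (b l + w) / 2^14 ≥ (b l + w) T w / 2^14` (`T w ≤ w²`). -/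
def GoalZ10 : Prop := ∀ (μ R N K b l Lg q β s : ℕ) (W : ℤ) (L o k D S n κ x : ℕ → ℕ) (y : ℕ),
  Zon μ R N K b l Lg q β s W L o k D S n κ x y →
  b * l + (R - 1 - y) + 2 ^ 14 * l * (N - κ y) ≤ 2 ^ 14 * l * (β + o y + oo μ R κ x y)

/-- Z11 (the last rows, too few conditions). As H11 (`Pool/Agent/Helper32/Hw/H11.lean`). Write `w1 = R - 1 - y`.
Induction: for `y ≤ y' ≤ R - 2` either `κ` has reached `N` at some row `r ≤ y'` with `lz r ≤ L r`, or the row `y'` is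
exact. Step from an exact `y'`, `y' + 2 < R`: E3(2) at `y'` (`J < ac (κ y')`: as `κ y ≤ κ y'` and `ac` is monotone) with `tot`, with
`w' = R - 1 - y' ≤ w1`, `Sd y' ≤ w' (Pn y + w1)` (a counted row `t < y` is counted in `Pn y` unless `U t = 0`),
`kk y' ≤ kk y + w1` (rows `< y` with `κ z = κ y'`, `na z < x z` exist only if `κ y' = κ y`, and are counted in `kk y`), `x - na ≤ w'`, `Sq`:
`(β + o + oo - (N - κ)) T w' ≥ W - w' (Pn + w1) - w' (K + (w' + 1) b / 2^24) - (w' + 1 + kk + w1) w' > 0`. So `N - κ ≤ β + o + oo` and H4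
gives `bb y' = lz y' + 1 + (N - 1 - κ) - oo - sk ≤ L y' + β + o ≤ L (y'+1)` (`na (y'+1) = na y' + 1`, `nx = x + 1`, also
if `x y' = 0`), hence by the greedy rule `lz (y'+1) = L (y'+1)`, or `κ (y'+1) = N` and `lz (y'+1) ≤ L (y'+1)`. After
`κ = N` loads do not increase (H4(3)), `L` does not decrease. If `N` is never reached: rows `≤ R - 2` exact, last
row by the total: `∑ lz = N T μ` (H2) and `∑_{z<R} L z = N T μ + W` (`tot` at `y = R - 1`, `D (R-1) = 0` by `Dn`,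
`S ≥ 0`, so `∑ L + S = N T μ + W`; hence `≥`… use `Sq` at `R - 1`: `S (R-1) = 0`), `W ≥ 0`. -/
def GoalZ11 : Prop := ∀ (μ R N K b β s kq : ℕ) (W : ℤ) (L o k D S n κ x : ℕ → ℕ) (y : ℕ), 1 ≤ μ →
  μ + 2 ≤ R → Ext μ R N K b β s W L o k D S n → Play μ R N κ x → Gr μ R N (s - 1) L κ x →
  Ex μ R N L κ x y → s ≤ y → y + 2 ≤ R → R - 1 - μ < ac R κ x (κ y) → kk μ R κ x y ≤ kq →
  ((R - 1 - y) * (2 ^ 24 * (Pn μ R x y + K + kq + 4 * (R - 1 - y) + 2) + (R - y) * b) : ℕ) <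
    2 ^ 24 * W →
  ∀ z < R, lz μ R N κ x z ≤ L z

/-- Z12 (the last rows, too many conditions). As H12 (`Pool/Agent/Helper62/Hw/H12.lean`). Let
`h z = lz z - L z`, `F z = (N - κ z) - β - o z - oo z` (integers); for `z ≥ s`, `κ z < N`, `z + 1 < R`:
`bb z - L (z + 1) = h z + F z - sk z - k z`. Rows `≤ R - 2` with `κ < N` have `h ≥ 0` (greedy rule). NA row: `bb z ≥ L (z+1)`
(then `lz (z+1) = bb z`). In consecutive NA rows `κ` jumps at most once before the row `R - 1` (by one, then `x` is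
natural and `nx < μ`), and `F` changes by (deaths) `- 2` (jump): `F j ≥ F j0 - 2`. Suppose some row has
`lz z < L z`. Let `r` be the first row `≤ R - 2` with `κ r = N`, or `r = R - 1` if there is none. Claim
`bb (r-1) ≤ L r`: if `r = R - 1` this is `lz (R-1) = bb (R-2) < L (R-1)` (the only row which can fail);
if `κ r = N` with `bb (r-1) > L r`, row `r` is NA, `κ (r-1) = N - 1`, `F (r-1) ≤ 0` (`N - κ = 1 ≤ β`) so `h (r-1) > 0`; let
`y0` be the last row `< r` with `h = 0` (`≥ y`): `F y0 ≥ 1`, so `κ y0 ≤ N - 2`, and all rows in `(y0, r]` are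
NA: at most one jump, contradiction. For `y < z < r` with `h z > 0`: `e` = first row `> z` with
`bb (e-1) ≤ L e`, `y0` = last row `< z` with `h = 0`, `F y0 ≥ 1`, so `F ≥ -1` on `[y0, e)` and
`h z ≤ ∑_{z ≤ j < e} (sk j + k j - F j) ≤ (Pn y + w1) + ∑ k + w1`, `w1 = R - 1 - y` (a `t` is counted in one `sk j`,
`U t = R - 1 - j`), `2^24 ∑ k ≤ 2^24 K + (w1 + 1) b` (`kq`). So `∑_{z<r} h z ≤ w1 (Pn + 2 w1 + ∑ k)`, and `lz z ≤ L z` for `z ≥ r` (loads do not
increase after `κ = N`), so `N * T μ = ∑ lz ≤ ∑ L + w1 (…) = N T μ + W + w1 (…)` (`tot` at `R - 1`: `∑_{z<R} L z = N T μ + W`, since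
`D (R-1) = 0`, `S (R-1) = 0`, `T 0 = 0`), contradiction. -/
def GoalZ12 : Prop := ∀ (μ R N K b β s : ℕ) (W : ℤ) (L o k D S n κ x : ℕ → ℕ) (y : ℕ), 1 ≤ μ →
  μ + 2 ≤ R → 1 ≤ β → Ext μ R N K b β s W L o k D S n → Play μ R N κ x → Gr μ R N (s - 1) L κ x →
  Ex μ R N L κ x y → s ≤ y → y + 2 ≤ R →
  ((R - 1 - y) * (2 ^ 24 * (Pn μ R x y + K + 2 * (R - 1 - y)) + (R - y) * b) : ℕ) +
    2 ^ 24 * W < 0 →
  ∀ z < R, L z ≤ lz μ R N κ x z

/-- Z15 (the zone theorem). (1) Row `s`: `bb (s-1) ≤ L s` and the greedy rule give `Ex` at `s`, or `κ s = N` with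
`lz s ≤ L s`. (2) For `s ≤ y`, `w < R - 1 - y`, `Ex` at `y`: Z10 at `y` (induction: `ih` for the earlier rows; `w1`, `w3` of `Zon` from the
hypotheses on `w`, monotone) gives `N - κ y ≤ β + o y + oo y`, so `bb y = L y + 1 + (N - 1 - κ y) - oo - sk ≤ L (y+1)` and the row `y + 1` is
exact, or `κ (y+1) = N`, `lz (y+1) ≤ L (y+1)`. (3) If `κ` reaches `N` at a row `r` with `lz r ≤ L r`
after exact rows: loads do not increase afterwards (H4(3)), `L` increases, all loads are `≤ L z` and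
`N * T μ ≤ ∑ L = N T μ + W`: first case. (4) Otherwise `Ex` at `y` with `R - 1 - y = w`; Z10a, Z10b at `y`:
`Pn y ≤ w + q + kk` (rows `t ≤ J`: at most `w`; rows `t > J` of old points: the number `q` of Z10a; rows of the point `κ y`: `kk`), `kk ≤ w`,
`l q ≤ 21 μ + 3 K l + 48 * 2^14 l w Lg`. So `l w (Pn + K + kk + 4 w + 2) + w (w + 1) l b / 2^24`
`≤ w (21 μ + 4 K l + 10 l w + 48 l w b / 2^26 + 2 l w b / 2^24) < w (32 μ + b l w / 2^20) ≤ l |W|`
(`K l ≤ μ / 2^31`, `Lg ≤ b / 2^40`); apply Z11 if `W > 0`, Z12 if `W < 0` (`W ≠ 0`). -/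
def GoalZ15 : Prop := ∀ (μ R N K b l Lg q β s w : ℕ) (W : ℤ) (L o k D S n κ x : ℕ → ℕ),
  Par μ R K b l Lg q → 1 ≤ β → Ext μ R N K b β s W L o k D S n → Play μ R N κ x →
  Gr μ R N (s - 1) L κ x → 1 ≤ s → Ex μ R N L κ x (s - 1) → bb μ R N κ x (s - 1) ≤ L s →
  Pau μ R s κ x → (∀ X ≤ μ, l * np μ R N κ x X ≤ 40 * X + 2 * l) → 1 ≤ w → s + 1 + w ≤ R →
  4 * w ≤ μ →
  (∀ y, s ≤ y → y < R → w ≤ R - 1 - y → (R - 1 - y) ^ 2 * (b * l + (R - 1 - y)) ≤
    4096 * l * (Dd μ R κ x y + D y)) →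
  2 ^ 24 * μ ≤ w * (b * l + w) → 2 ^ 14 * l * |W| ≤ ((w ^ 2 * (b * l + w) : ℕ) : ℤ) →
  ((w * (2 ^ 25 * μ + b * l * w) : ℕ) : ℤ) ≤ 2 ^ 20 * l * |W| →
  (0 ≤ W ∧ ∀ z < R, lz μ R N κ x z ≤ L z) ∨ (W ≤ 0 ∧ ∀ z < R, L z ≤ lz μ R N κ x z)

/-- Game (the game theorem). Proof: E1, E4, E8a, E8b give a stopped play; `Γ t = ℓ t - lz t` satisfies the hypotheses
of GE with `S = J + μ / 400` (`16 l (Γ (t+1) - Γ t) ≥ μ ≥ 64 K l`; `Γ S ≥ (μ / 400) μ / (16 l) ≥ K μ`); this gives `Grp`; E12 with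
`L = ℓ - gV` (rows `τ ≤ z < s`: `gV z = Γ z`; row `s`: `gV s ≤ K μ ≤ Γ s`), E13, E14, En, Z15. (`gV z ≤ ℓ z`: before `τ` it is `0`, then
`Γ z`, and for `z ≥ s` `gV z ≤ K μ ≤ Γ s ≤ ℓ s ≤ ℓ z`.) Done by helper18. -/
def GoalGame : Prop := ∀ (μ R N K b l Lg q β v w : ℕ) (ℓ : ℕ → ℕ) (W : ℤ), Par μ R K b l Lg q →
  Len R β ℓ → 4 * μ ^ 2 ≤ l * (β * R) → l * (β * R) ≤ 8 * μ ^ 2 → 1 ≤ v →
  320 * (2 ^ q * v) ≤ b * l → b * l ≤ 640 * (2 ^ q * v) →
  (∑ z ∈ range R, (ℓ z : ℤ) = (N + K) * T μ + W) → v < w → 4 * w ≤ μ →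
  2 ^ 24 * μ ≤ w * (b * l + w) → 2 ^ 14 * l * |W| ≤ ((w ^ 2 * (b * l + w) : ℕ) : ℤ) →
  ((w * (2 ^ 25 * μ + b * l * w) : ℕ) : ℤ) ≤ 2 ^ 20 * l * |W| →
  ∃ (κ x e P : ℕ → ℕ) (τ s E : ℕ), Play μ R N κ x ∧ Grp μ R K τ s E e P ∧
    (∀ t, τ ≤ t → t < s → κ t = κ τ ∧ x t = na μ R t) ∧ κ (τ - 1) < κ τ ∧ κ τ < N ∧
    ((0 ≤ W ∧ ∀ z < R, lz μ R N κ x z + gV μ R K τ s e P z ≤ ℓ z) ∨
      (W ≤ 0 ∧ ∀ z < R, ℓ z ≤ lz μ R N κ x z + gV μ R K τ s e P z))

/-- PA (abstract prices). `r t` is the rank of the step from the row `t` to the row `t + 1`, `δ t` its size.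
Let `D0` bound `δ t`, `sl c` (`t < R`, `c < C`), `B = (R + 1) (D0 + 1) + 1`, `M` bound the ranks, `u k = B^(M - k)` (so
`u k = B u (k+1)`), `π y = ∑_{t < y} δ t * u (r t)`, `ε c = sl c * u (rk c)`. For `y < z < R`:
`V z - V y = ∑_{y ≤ t < z} δ t u (r t) - (z - y) ε c`. If `r y < rk c` the first term is
`≥ u (r y) ≥ B u (rk c) > R D0 u (rk c)`. If `rk c ≤ r y` (so `rk c ≤ r t` for all `t ≥ y`): the terms with
`r t = rk c` give `u (rk c) ∑ δ t`, the others (rank `> rk c`) together less than `u (rk c)`, and they are `≥ 0`. -/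
def GoalPA : Prop := ∀ (R C : ℕ) (r δ rk sl : ℕ → ℕ), (∀ t, t + 1 < R → r t ≤ r (t + 1)) →
  (∀ t, 1 ≤ δ t) → (∀ c, 1 ≤ sl c) →
  ∃ π ε : ℕ → ℤ, ∀ c < C, ∀ y z, y < z → z < R →
    (r y < rk c → π y - ε c * y < π z - ε c * z) ∧
    (rk c ≤ r y → sl c * (z - y) < ∑ t ∈ (Ico y z).filter (fun t => r t = rk c), δ t →
      π y - ε c * y < π z - ε c * z) ∧
    (rk c ≤ r y → ∑ t ∈ (Ico y z).filter (fun t => r t = rk c), δ t < sl c * (z - y) →
      π z - ε c * z < π y - ε c * y)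

/-- conditions given to the row `z` by the point `c`: ordinary for `c < N`, special for `c ≥ N` -/
def comb (μ R N τ s : ℕ) (κ x e P : ℕ → ℕ) (c z : ℕ) : ℕ :=
  if c < N then va μ R κ x c z else va μ R (gk s e P (c - N)) (gx μ τ s e P (c - N)) 0 z

/-- PG (prices). Let `g = κ τ`, `Dr = R + 2`. Use PA with the ranks `r t = κ t` for `t < τ` (`< g`), `g` for
`τ ≤ t < s`, `κ t + 1` for `t ≥ s`; points: `c < g` ordinary: `rk = c`, `sl = 2 Dr`; `g ≤ c < N` ordinary: `rk = c + 1`,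
`sl = 2 Dr`; special `i`: `rk = g`, `sl = e i * Dr`. Let `P' t = P t` for `τ ≤ t < s`, and for the other rows
`P' t = 2 (μ - x t) + 1` if `0 < x t`, `P' t = 2 (μ + R - t) + 1` if `x t = 0`. If `t, t + 1` have the same rank,
`δ t = (P' t - P' (t+1)) Dr + 1`, otherwise `δ t = P' t Dr + 1`. In a block (rows of the same rank) `P' t - P' (t+1) ≥ e`
for the slope `e` of every point of this rank (`e = 2`: `inc`; `e i ≤ E`: `dr`).
For a point of rank `ρ`, slope `e`, with the block `[B0, B1)` (rows of rank `ρ`), `V z = π z - ε z`: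
(i) `y < B0`: all the later rows are better (`V` larger), so `R - 1 - y` rows later are better; the rows before
`y` are worse. The value is `na y = μ - (R - 1 - y)` or `0`: `U = {z : y < z < R}`.
(ii) `y` in the block: the rows before `y` are worse; a row `z > y` is better iff `e (z - y) ≤ P' y` (for
`z` in the block `∑ δ = (P' y - P' z) Dr + (z - y)` and `P' y - P' z ≥ e (z - y)`; for `z ≥ B1`
`∑ δ = P' y Dr + (B1 - y)`, compare with `e Dr (z - y)`, `B1 - y < Dr`). So the number of better rows is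
`≤ P' y / e`, which is `μ - x y` (ordinary, `0 < x y`), `P y / e i` (special). `U` = these rows.
(iii) `y ≥ B1`: later rows are worse, the rows of `[B1, y)` are better, a row `t` of the block is better iff
`e (y - t) > P' t`, i.e. `y - t > P' t / e`; rows before `B0` are worse. Ordinary: for `0 < x t` this is
`μ + t < x t + y`, for `x t = 0` it does not happen (`y - t ≤ R - t`): `card U = (y - st) + card (mv …)` as in the definition
of `nn`. Special: if `gx t > 0` the same; if `P t / e i ≥ μ` and `t` is better than `y` then the value at `y` is `0`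
(`t' + P t' / e i` is nonincreasing in `t' ∈ [t, s)`, so all the rows of `[t, y)` are better, more than `μ` rows).
If `gs i = s - 1`, the row `s - 1` is in the block, `P (s-1) / e i = 0`: no row is better, value `μ`; and it is better than all the
rows `y ≥ s`: consistent with `va` for `gk`, `gx`. For ordinary points `c ≥ g` and rows `τ ≤ y < s`: case (i), `va = na y` (for `c = g`
because `x y = na y`; these rows are never counted in `mv` of later rows: `μ + t < na t + y` is impossible).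
The points `c < g` are old at `τ` and `κ (τ - 1) < g`, so the block of `c < g` ends at or before `τ`. The last row `R - 1` has no step. -/
def GoalPG : Prop := ∀ (μ R N K τ s E : ℕ) (κ x e P : ℕ → ℕ), 1 ≤ μ → μ + 2 ≤ R →
  Play μ R N κ x → Grp μ R K τ s E e P →
  (∀ t, τ ≤ t → t < s → κ t = κ τ ∧ x t = na μ R t) → κ (τ - 1) < κ τ → κ τ < N →
  ∃ π ε : ℕ → ℤ, Pri R (fun _ => μ) (comb μ R N τ s κ x e P) π ε (N + K)

open Pool.Agent.Lead.Sh
open Pool.Agent.Helper18.SG (sig rl GoalS GoalA2 GoalF1)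

/-- SI. Super rows of degree `b`, independence of the conditions (GoalS of project SG is proved:
`Pool.Agent.Helper18.SG.gS` in `Pool/Agent/Helper18/SG/Main.lean`).

Proof. (1) If `Ind D' (rows m s)`, `(rows m s).card < D'.card` then for a new index `k ∉ s` and `m' = m` except `m' k = 1`:
`Ind D' (rows m' (insert k s))`: let `IndAt D' (rows m s) P`; there is `c ≠ 0` on `D'` with
`∑_d c d * E r.2 d (P r.1) = 0` for all rows `r` (fewer equations than unknowns); the polynomial `∑_d c d x^(d.1) y^(d.2)` is not zero, so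
it does not vanish at some `(x0, y0)`; put `P k = (x0, y0)`; in a relation, the coefficient of the new row is `0` (pair
with `c`), and then all. (2) So by induction `Ind D' (rows m' s')` with `s ⊆ s'`, `m' = m` on `s`,
`(rows m' s').card = D'.card`, for `D' = D.image (sig b)`; the matrix is square, so `Inj D' (rows m' s')`
(as `InjAt.ind` in the other direction), GoalS gives `Inj D (rows m' s')`, `D.card = D'.card` (`sig b` is
injective), so `Ind D (rows m' s')` (`InjAt.ind`), and `Ind D (rows m s)` (`Ind.mono`, `rows_congr`). -/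
def GoalSI : Prop :=
  ∀ (b : ℕ) (D : Finset (ℕ × ℕ)) (m : ℕ → ℕ) (s : Finset ℕ), GoalS → 1 ≤ b →
    (∀ d ∈ D, b ≤ d.2 → (d.1 + 1, d.2 - b) ∈ D) →
    Ind (D.image (sig b)) (rows m s) → Ind D (rows m s)

/-- Tri (from the game to the triangle). `GoalS`, `GoalA2`, `GoalF1` are proved (SG/Main.lean: `gS`, `gA2`,
`Pool.Agent.Helper34.SG.goalF1`). `ℓ y = rl p d y`; the row `k` of `D = (triD 0 d).image (sig p)` has `rl p d (d/p - k)` elements and is
played at `y = d/p - k`. PG gives prices, `pri_rev` (Helper49/Gm/F2.lean) reverses the rows. First: `A2` with `D`, then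
GoalS. Second: choose `D'' ⊆ D` with exactly `lz z + gV z` elements in the row `d/p - z`: `A2` gives `Inj D'' rows`, and
`D''.card = ∑ (lz + gV) = (N + K) T μ = (rows …).card` (H2 total, G2(1); `card_rows`), so `InjAt.ind` gives `Ind D'' rows`, hence
`Ind D rows`, and SI. (`∑_{c < N+K} comb c z = lz z + gV z`.) -/
def GoalTri : Prop := GoalS → GoalA2 → GoalF1 → GoalPG → GoalG2 → GoalSI →
  ∀ (p d μ N K τ s E : ℕ) (κ x e P : ℕ → ℕ), 1 ≤ p → 1 ≤ μ → μ + 2 ≤ d / p + 1 →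
    Play μ (d / p + 1) N κ x → Grp μ (d / p + 1) K τ s E e P →
    (∀ t, τ ≤ t → t < s → κ t = κ τ ∧ x t = na μ (d / p + 1) t) → κ (τ - 1) < κ τ → κ τ < N →
    ((∀ z < d / p + 1, rl p d z ≤ lz μ (d / p + 1) N κ x z + gV μ (d / p + 1) K τ s e P z) →
      Inj (triD 0 d) (rows (fun _ => μ) (range (N + K)))) ∧
    ((∀ z < d / p + 1, lz μ (d / p + 1) N κ x z + gV μ (d / p + 1) K τ s e P z ≤ rl p d z) →
      Ind (triD 0 d) (rows (fun _ => μ) (range (N + K))))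

/-- Ln (the lengths of the super rows). `d = p (d/p) + ρ`, `ρ < p`: `rl 0 = (ρ+1)(ρ+2)/2 ≤ p²`,
`rl 1 = ∑_{j<p} (p + ρ + 1 - j) = p (ρ + 1) + p (p+1)/2`, so `p²/2 ≤ rl 1 ≤ 2 p²`; `z1`, `st`, the sum: GoalF1; `lo`, `hi` by induction. -/
def GoalLn : Prop := GoalF1 → ∀ p d : ℕ, 1 ≤ p → p ≤ d →
  Len (d / p + 1) (p ^ 2) (rl p d) ∧ ∑ y ∈ range (d / p + 1), rl p d y = (d + 2).choose 2

end Pool.Agent.Helper18.EW
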