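import Mathlib
import Pool.Agent.Helper18.EW.Goals2
import Pool.Agent.Helper43.Hw.Goals2

/-!
# Project EW: intermediate statements (packets), part 3: numbers and the final theorem
-/

set_option autoImplicit false

namespace Pool.Agent.Helper18.EW

open Finset
open Pool.Agent.Helper43.Hw (T NS)

/-- the size of the window -/
noncomputable def win2 (c : ℝ) (n m : ℕ) : ℝ :=
  (Real.sqrt n + (1 + Real.log m) ^ 3) * (1 + Real.log m) ^ 2 +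
    (m : ℝ) ^ 2 * Real.exp (-(c * (n : ℝ) ^ ((1 : ℝ) / 3)))

/-- NA (choice of the degree `p` of the super rows, of `l` and `b`). `r = Nat.sqrt n ≥ 2^42`,
`r² ≤ n < (r+1)²`, `m ≥ n / 433 ≥ 2^76`. From the equation and `W ≤ 3 m²`: `0.99 r m ≤ d ≤ 1.02 r m`.
`p = 2^75 Lg³ / r + 1 ≤ r / 2^9` (`2^75 Lg³ ≤ n / 2^10`), `p r > 2^75 Lg³`, `p r ≤ 2^75 Lg³ + r`. So `100 m p ≤ d`. Let
`B = p² (d/p + 1)`: `p d < B ≤ p d + p² ≤ 1.03 p r m`, so `B ≤ 1.03 r² m / 2^9 ≤ n m / 490 ≤ m²`. `l = 4 m² / B + 1`: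
`4 m² ≤ l B ≤ 4 m² + B ≤ 8 m²`. `b = m / (2^31 Lg² l)`. `2^40 Lg ≤ b` since `2^71 Lg³ l ≤ m`, which follows from
`l ≤ 8 m² / B ≤ 8 m² / (p d)` and `p d ≥ 0.99 p r m ≥ 2^74 Lg³ m`. So `b ≥ 1` and `m < 2^31 Lg² l (b+1) ≤ 2^32 Lg² l b`.
`22 m B ≤ 22 n m² / 490 < 4 n m² ≤ 2^Lg 4 m² ≤ 2^Lg l B`. Last: `4 m² ≤ l B ≤ 1.03 l p r m ≤ 1.03 l m (2^75 Lg³ + r)`. -/
def GoalNA : Prop := ∀ n m d W Lg : ℕ, 1 ≤ Lg → 2 ^ 85 * Lg ^ 3 ≤ n → n ≤ 2 ^ Lg →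
  n ≤ 433 * m → W ≤ 3 * m ^ 2 →
  ((d + 1) * (d + 2) = n * (m * (m + 1)) + 2 * W ∨
    (d + 1) * (d + 2) + 2 * W = n * (m * (m + 1))) →
  ∃ p l b : ℕ, 1 ≤ p ∧ p ≤ d ∧ 100 * m ≤ d / p + 1 ∧ 4 * m ^ 2 ≤ l * (p ^ 2 * (d / p + 1)) ∧
    l * (p ^ 2 * (d / p + 1)) ≤ 8 * m ^ 2 ∧ 1 ≤ l ∧ 2 ^ 40 * Lg ≤ b ∧
    2 ^ 31 * b * Lg ^ 2 * l ≤ m ∧ 22 * m < 2 ^ Lg * l ∧ m ≤ 2 ^ 32 * Lg ^ 2 * l * b ∧
    m ≤ l * (2 ^ 75 * Lg ^ 3 + 2 * Nat.sqrt n)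

/-- NB (choice of the last rows). Let `h w = w² (b l + w)`, `w1` the least `w` with `2^14 l W ≤ h w`, `wA` the least `w`
with `2^24 m ≤ w (b l + w)`, `wB = b l / 2^Lg + 2`, `w = max w1 wA wB ≥ 2`. Note `2^71 l ≤ m`, `b l ≤ m / 2^31`.
(`4 w ≤ m`: `h (m/8) ≥ m³ / 729 ≥ 2^14 l * 3 m²`, `(m/8)² ≥ 2^24 m`, `wB ≤ b l / 2 + 2 ≤ m / 8`.) `v`, `q`: if `b l ≤ 320 w - 320`
then `q = 0`, `v = b l / 320 ≤ w - 1`; otherwise `v = w - 1`, `q = Nat.log 2 (b l / (320 v))`: `2^q ≤ b l / (320 v) < 2^(q+1)`, so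
`320 2^q v ≤ b l < 640 2^q v`; `v ≥ b l / 2^Lg + 1 > b l / 2^Lg` (real) gives `2^q < 2^Lg / 320`, so `q + 1 ≤ Lg`.
Last claim. Case `w = w1`: `h (w - 1) < 2^14 l W`, `w ≤ 2 (w - 1)`, so `h w ≤ 8 h (w-1) < 2^17 l W`; `b l w² ≤ h w`,
`2^25 m w ≤ 2 w² (b l + w) = 2 h w` (`w ≥ wA`). Case `w = wA > w1`: `(w-1) (b l + w - 1) < 2^24 m`, so `w (b l + w) ≤ 2^26 m`;
the left side is `≤ w (2^25 m + 2^26 m) ≤ 2^27 m w`, and `w b l ≤ 2^26 m ≤ 2^58 Lg² l b` gives `w ≤ 2^58 Lg²`: `≤ 2^85 Lg² m ≤ 2^20 l W`.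
Case `w = wB`, larger than `w1`, `wA`: `2^24 m ≤ w (b l + w) ≤ 2 w b l` (`w ≤ b l`), so the left side is `≤ 5 w² b l`; and
`w² ≤ 2 (b l)² / 4^Lg + 8`, so `5 w² b ≤ 10 b (b l)² / 4^Lg + 40 b ≤ 2^20 W`. -/
def GoalNB : Prop := ∀ m l b Lg W : ℕ, 1 ≤ l → 1 ≤ Lg → 2 ^ 40 * Lg ≤ b →
  2 ^ 31 * b * Lg ^ 2 * l ≤ m → m ≤ 2 ^ 32 * Lg ^ 2 * l * b → W ≤ 3 * m ^ 2 →
  2 ^ 65 * Lg ^ 2 * m ≤ l * W → b * (b * l) ^ 2 + b * 4 ^ Lg ≤ W * 4 ^ Lg →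
  ∃ q v w : ℕ, q + 1 ≤ Lg ∧ 1 ≤ v ∧ 320 * (2 ^ q * v) ≤ b * l ∧ b * l ≤ 640 * (2 ^ q * v) ∧
    v < w ∧ 4 * w ≤ m ∧ 2 ^ 24 * m ≤ w * (b * l + w) ∧
    2 ^ 14 * l * W ≤ w ^ 2 * (b * l + w) ∧ w * (2 ^ 25 * m + b * l * w) ≤ 2 ^ 20 * l * W

/-- NC (choice of `Lg`). `c = 2^(-30)`. From `C m² exp (-c n^(1/3)) ≤ W ≤ 3 m²`: `n` is as large as we like if `C` is
large. `Lg = min λ L1`, `λ = Nat.log 2 m + Nat.log 2 n + 2` (so `n m < 2^λ`, and, as `n ≤ 433 m`, `λ ≤ 11 (1 + log m)`), `L1` the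
largest number with `2^85 L1³ ≤ n` (`L1 + 1 > n^(1/3) / 2^(85/3)`; `n ≤ 2^L1` as `n` is large). Let
`A = 2^75 Lg³ + 2 √n` (`≤ n`). First claim: `m ≤ l A`, `2^65 Lg² A ≤ W` since `Lg ≤ 11 (1 + log m)`, `C ≥ 2^160`. Second:
`2^31 b Lg² l ≤ m ≤ l A` gives `b ≤ A ≤ W / 2`, and `b l ≤ m / 2^31`, so `b (b l)² ≤ A m² / 2^62 ≤ n m²`. If `Lg = λ`: `4^Lg ≥ n² m²`, and
`1 ≤ W / 2`. If `Lg = L1`: `4^L1 ≥ exp (2 c n^(1/3)) / 4` (`log 4 / 2^(85/3) ≥ 2 c`), so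
`W 4^L1 / 2 ≥ C m² exp (c n^(1/3)) / 8 ≥ n m²` as `n is large` (or `C` is large: `exp x ≥ x³ / 6`). -/
def GoalNC : Prop := ∃ C c : ℝ, 1 ≤ C ∧ 0 < c ∧ ∀ n m W : ℕ, 1 ≤ n → 1 ≤ m → n ≤ 433 * m →
  W ≤ 3 * m ^ 2 → C * win2 c n m ≤ W →
  ∃ Lg : ℕ, 1 ≤ Lg ∧ 2 ^ 85 * Lg ^ 3 ≤ n ∧ n ≤ 2 ^ Lg ∧
    ∀ l b : ℕ, 1 ≤ l → 1 ≤ b → 2 ^ 31 * b * Lg ^ 2 * l ≤ m →
      m ≤ l * (2 ^ 75 * Lg ^ 3 + 2 * Nat.sqrt n) →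
      2 ^ 65 * Lg ^ 2 * m ≤ l * W ∧ b * (b * l) ^ 2 + b * 4 ^ Lg ≤ W * 4 ^ Lg

open Pool.Agent.Lead.Sh in
/-- FA (the main case). `r = d/p + 1`, `e = C(d+2,2) - n C(m+1,2)`, `W = |e|`. NA, NB (for all the numbers; the last
hypothesis is the conclusion of NC). `K = b (q+1) ≤ b Lg < n` (`2^31 b Lg² l ≤ m ≤ l (2^75 Lg³ + 2 √n) ≤ l n`), `N = n - K`. GoalLn, the
game theorem with `μ = m`, `R = d/p + 1`, `β = p²`, `ℓ = rl p d` (`T m = (m+1).choose 2`), then the triangle. -/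
def GoalFA : Prop := Pool.Agent.Helper18.SG.GoalF1 → GoalNA → GoalNB → GoalGame → GoalLn →
  (∀ (p d μ N K τ s E : ℕ) (κ x e P : ℕ → ℕ), 1 ≤ p → 1 ≤ μ → μ + 2 ≤ d / p + 1 →
    Pool.Agent.Helper43.Hw.Play μ (d / p + 1) N κ x → Grp μ (d / p + 1) K τ s E e P →
    (∀ t, τ ≤ t → t < s → κ t = κ τ ∧ x t = Pool.Agent.Helper43.Hw.na μ (d / p + 1) t) →
    κ (τ - 1) < κ τ → κ τ < N →
    ((∀ z < d / p + 1, Pool.Agent.Helper18.SG.rl p d z ≤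
        Pool.Agent.Helper43.Hw.lz μ (d / p + 1) N κ x z + gV μ (d / p + 1) K τ s e P z) →
      Inj (triD 0 d) (rows (fun _ => μ) (range (N + K)))) ∧
    ((∀ z < d / p + 1, Pool.Agent.Helper43.Hw.lz μ (d / p + 1) N κ x z +
        gV μ (d / p + 1) K τ s e P z ≤ Pool.Agent.Helper18.SG.rl p d z) →
      Ind (triD 0 d) (rows (fun _ => μ) (range (N + K))))) →
  ∀ (n m d Lg W : ℕ), 1 ≤ Lg → 2 ^ 85 * Lg ^ 3 ≤ n → n ≤ 2 ^ Lg → n ≤ 433 * m → W ≤ 3 * m ^ 2 →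
    |((d + 2).choose 2 : ℤ) - n * (m + 1).choose 2| = W →
    (∀ l b : ℕ, 1 ≤ l → 1 ≤ b → 2 ^ 31 * b * Lg ^ 2 * l ≤ m →
      m ≤ l * (2 ^ 75 * Lg ^ 3 + 2 * Nat.sqrt n) →
      2 ^ 65 * Lg ^ 2 * m ≤ l * W ∧ b * (b * l) ^ 2 + b * 4 ^ Lg ≤ W * 4 ^ Lg) →
    (n * (m + 1).choose 2 ≤ (d + 2).choose 2 ∧ Ind (triD 0 d) (rows (fun _ => m) (range n))) ∨
      ((d + 2).choose 2 ≤ n * (m + 1).choose 2 ∧ Inj (triD 0 d) (rows (fun _ => m) (range n)))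

/-- Fin (the window theorem). If `3 m² ≤ |e|`: `Pool.Agent.Helper43.Gm.main_all` (as in H16). If `n > 433 m`:
`Pool.Agent.Helper18.SG.main_room` (`Pool/Agent/Helper18/SG/Main2.lean`), third alternative (`(n - 9) (m + 1) ≥ 432 m² + 246 m`), for `d ≥ 3 m`; for
`d < 3 m` `|e| ≥ 3 m²`. Otherwise `W = |e|`: the constants of NC, FA, `Pool.Agent.Lead.Rw.concl` (as in H16). -/
def GoalFin : Prop := GoalNC →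
  (∀ (n m d Lg W : ℕ), 1 ≤ Lg → 2 ^ 85 * Lg ^ 3 ≤ n → n ≤ 2 ^ Lg → n ≤ 433 * m → W ≤ 3 * m ^ 2 →
    |((d + 2).choose 2 : ℤ) - n * (m + 1).choose 2| = W →
    (∀ l b : ℕ, 1 ≤ l → 1 ≤ b → 2 ^ 31 * b * Lg ^ 2 * l ≤ m →
      m ≤ l * (2 ^ 75 * Lg ^ 3 + 2 * Nat.sqrt n) →
      2 ^ 65 * Lg ^ 2 * m ≤ l * W ∧ b * (b * l) ^ 2 + b * 4 ^ Lg ≤ W * 4 ^ Lg) →
    (n * (m + 1).choose 2 ≤ (d + 2).choose 2 ∧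
        Pool.Agent.Lead.Sh.Ind (Pool.Agent.Lead.Sh.triD 0 d)
          (Pool.Agent.Lead.Sh.rows (fun _ => m) (range n))) ∨
      ((d + 2).choose 2 ≤ n * (m + 1).choose 2 ∧
        Pool.Agent.Lead.Sh.Inj (Pool.Agent.Lead.Sh.triD 0 d)
          (Pool.Agent.Lead.Sh.rows (fun _ => m) (range n)))) →
  ∃ C c : ℝ, 0 < C ∧ 0 < c ∧ ∀ n m d : ℕ, 1 ≤ n → 1 ≤ m →
    C * win2 c n m ≤ |((d + 2).choose 2 : ℝ) - n * ((m + 1).choose 2 : ℝ)| → NS n m d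

end Pool.Agent.Helper18.EW
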