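import Mathlib
import Pool.Agent.Helper18.EW.Goals3

/-!
# Project EW, part 4: trapezoids, gluing along a line, and the full theorem for `n ≥ C (1 + log m)³`

Packets. Trapezoids: F1Z, LnZ, TriZ, NAZ, FAZ, WZ. Gluing: CP, Wr, Sw, Inv, GT, GL, GLd, Rx.
End: ND, FinZ. Here `rows`, `Ind`, `Inj`, `triD` are those of `Pool.Agent.Lead.Sh`.
-/

set_option autoImplicit false

namespace Pool.Agent.Helper18.EW

open Finset
open Pool.Agent.Lead.Sh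
open Pool.Agent.Helper43.Hw (T na va lz Play NS)
open Pool.Agent.Helper18.SG (sig GoalS GoalA2)

/-- the trapezoid: the cells `(i, j)` with `i + j ≤ d`, `j < h` -/
def triZ (d h : ℕ) : Finset (ℕ × ℕ) := (triD 0 d).filter (fun x => x.2 < h)

/-- the super rows of degree `p` of `triZ d h` (`y = 0` is the last one, `j` near `h`) -/
def rz (p d h y : ℕ) : ℕ :=
  ∑ r ∈ (range p).filter (fun r => p * ((h - 1) / p - y) + r < h),
    (d + 1 - (p * ((h - 1) / p - y) + r))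

/-- the expected result for `n` points of multiplicity `m` on the cells `D` -/
def Ok (D : Finset (ℕ × ℕ)) (n m : ℕ) : Prop :=
  (n * (m + 1).choose 2 ≤ D.card ∧ Ind D (rows (fun _ => m) (range n))) ∨
    (D.card ≤ n * (m + 1).choose 2 ∧ Inj D (rows (fun _ => m) (range n)))

/-- F1Z. The super rows of the trapezoid; as F1 (`Pool/Agent/Helper34/SG/…`, `goalF1`). The row `k` of the
image consists of the `(p i + r, k)` with `r < p`, `p k + r < h`, `i + (p k + r) ≤ d`. The number of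
cells is `∑_{j < h} (d + 1 - j)`. -/
def GoalF1Z : Prop := ∀ p d h : ℕ, 1 ≤ p → 1 ≤ h → h ≤ d + 1 →
  (∀ x ∈ triZ d h, p ≤ x.2 → (x.1 + 1, x.2 - p) ∈ triZ d h) ∧
  (∀ x ∈ (triZ d h).image (sig p), x.2 < (h - 1) / p + 1) ∧
  (∀ k < (h - 1) / p + 1, (((triZ d h).image (sig p)).filter (fun x => x.2 = k)).card =
    rz p d h ((h - 1) / p - k)) ∧
  (∑ y ∈ range ((h - 1) / p + 1), rz p d h y = (triZ d h).card) ∧
  2 * (triZ d h).card + (d + 1 - h) * (d + 2 - h) = (d + 1) * (d + 2)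

/-- LnZ. The lengths of the super rows of the trapezoid. `R = (h-1)/p + 1`, `p R ≥ h`, `R ≥ 100`. For `y = 0` the
terms are `≤ (d + 1 - h) + p` and there are at most `p`: `100 rz 0 ≤ p h ≤ p² R`. For `y ≥ 1` all the `r < p` are
counted (`p k + r < h` since `k ≤ (h-1)/p - 1`), the terms grow by `p` when `y` grows by one (`k` decreases):
`st`; `z1`: more and larger terms. `lo`: the term is `d + 1 - p k - r ≥ p y + 1 - r` (`d + 1 ≥ h ≥ p (h-1)/p + 1`).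
`hi`: `rz y ≤ p (d + 1)` and `50 (d + 1) ≤ 51 h`. -/
def GoalLnZ : Prop := ∀ p d h : ℕ, 1 ≤ p → 1 ≤ h → h ≤ d + 1 →
  100 * (d + 1 - h) + 100 * p ≤ h → Len ((h - 1) / p + 1) (p ^ 2) (rz p d h)

/-- the conclusion of TriZ -/
def TriC : Prop :=
  ∀ (p d h μ N K τ s E : ℕ) (κ x e P : ℕ → ℕ), 1 ≤ p → 1 ≤ h → h ≤ d + 1 → 1 ≤ μ →
    μ + 2 ≤ (h - 1) / p + 1 →
    Play μ ((h - 1) / p + 1) N κ x → Grp μ ((h - 1) / p + 1) K τ s E e P →
    (∀ t, τ ≤ t → t < s → κ t = κ τ ∧ x t = na μ ((h - 1) / p + 1) t) →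
    κ (τ - 1) < κ τ → κ τ < N →
    ((∀ z < (h - 1) / p + 1, rz p d h z ≤
        lz μ ((h - 1) / p + 1) N κ x z + gV μ ((h - 1) / p + 1) K τ s e P z) →
      Inj (triZ d h) (rows (fun _ => μ) (range (N + K)))) ∧
    ((∀ z < (h - 1) / p + 1, lz μ ((h - 1) / p + 1) N κ x z +
        gV μ ((h - 1) / p + 1) K τ s e P z ≤ rz p d h z) →
      Ind (triZ d h) (rows (fun _ => μ) (range (N + K))))

/-- TriZ (from the game to the trapezoid). The same proof as for Tri (see GoalTri in Goals2), with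
`D = (triZ d h).image (sig p)`, `R = (h-1)/p + 1`, `rz p d h` and F1Z instead of F1 (Tri itself is not needed any
more). -/
def GoalTriZ : Prop := GoalS → GoalA2 → GoalF1Z → GoalPG → GoalG2 → GoalSI → TriC

/-- NAZ (choice of `p`, `l`, `b`). As NA (`Pool/Agent/Helper82/EW/NA.lean`) with `h` instead of `d`: let
`g = d + 1 - h ≤ h / 200`; the relation is `h (h + 2 g + 1) = n m (m + 1) ± 2 W`, and gives
`0.98 r m ≤ h ≤ 1.02 r m` (`r = Nat.sqrt n ≥ 2^42`). `p = 2^75 Lg³ / r + 1 ≤ r / 2^9`; `B = p² ((h-1)/p + 1)`, `p h ≤ B ≤ p h + p²`.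
`100 g ≤ h / 2`, `100 p ≤ h / 2`. The rest as in NA (`l = 4 m² / B + 1`, `b = m / (2^31 Lg² l)`). -/
def GoalNAZ : Prop := ∀ n m d h W Lg : ℕ, 1 ≤ Lg → 2 ^ 85 * Lg ^ 3 ≤ n → n ≤ 2 ^ Lg →
  n ≤ 433 * m → W ≤ 3 * m ^ 2 → 1 ≤ h → h ≤ d + 1 → 200 * (d + 1 - h) ≤ h →
  ((d + 1) * (d + 2) = n * (m * (m + 1)) + 2 * W + (d + 1 - h) * (d + 2 - h) ∨
    (d + 1) * (d + 2) + 2 * W = n * (m * (m + 1)) + (d + 1 - h) * (d + 2 - h)) →
  ∃ p l b : ℕ, 1 ≤ p ∧ 100 * (d + 1 - h) + 100 * p ≤ h ∧ 100 * m ≤ (h - 1) / p + 1 ∧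
    4 * m ^ 2 ≤ l * (p ^ 2 * ((h - 1) / p + 1)) ∧
    l * (p ^ 2 * ((h - 1) / p + 1)) ≤ 8 * m ^ 2 ∧ 1 ≤ l ∧ 2 ^ 40 * Lg ≤ b ∧
    2 ^ 31 * b * Lg ^ 2 * l ≤ m ∧ 22 * m < 2 ^ Lg * l ∧ m ≤ 2 ^ 32 * Lg ^ 2 * l * b ∧
    m ≤ l * (2 ^ 75 * Lg ^ 3 + 2 * Nat.sqrt n)

/-- the conclusion of FAZ -/
def FAc : Prop := ∀ (n m d h Lg W : ℕ), 1 ≤ Lg → 2 ^ 85 * Lg ^ 3 ≤ n → n ≤ 2 ^ Lg →
  n ≤ 433 * m → W ≤ 3 * m ^ 2 → 1 ≤ h → h ≤ d + 1 → 200 * (d + 1 - h) ≤ h →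
  |((triZ d h).card : ℤ) - n * (m + 1).choose 2| = W →
  (∀ l b : ℕ, 1 ≤ l → 1 ≤ b → 2 ^ 31 * b * Lg ^ 2 * l ≤ m →
    m ≤ l * (2 ^ 75 * Lg ^ 3 + 2 * Nat.sqrt n) →
    2 ^ 65 * Lg ^ 2 * m ≤ l * W ∧ b * (b * l) ^ 2 + b * 4 ^ Lg ≤ W * 4 ^ Lg) →
  Ok (triZ d h) n m

/-- FAZ. The same proof as FA (`Pool/Agent/Helper51/EW/FA.lean`), with `R = (h-1)/p + 1`, `ℓ = rz p d h` and F1Z, NAZ, LnZ, TriC
instead of F1, NA, Ln, Tri. -/
def GoalFAZ : Prop := GoalF1Z → GoalNAZ → GoalNB → GoalGame → GoalLnZ → TriC → FAc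

/-- the window theorem in the form used below -/
def WZc : Prop := ∀ (n m d h Lg W : ℕ), 1 ≤ Lg → 2 ^ 85 * Lg ^ 3 ≤ n → n ≤ 2 ^ Lg → m ≤ 2 ^ Lg →
  n ≤ 433 * m → W ≤ 3 * m ^ 2 → 1 ≤ h → h ≤ d + 1 → 200 * (d + 1 - h) ≤ h →
  |((triZ d h).card : ℤ) - n * (m + 1).choose 2| = W →
  2 ^ 65 * Lg ^ 2 * (2 ^ 75 * Lg ^ 3 + 2 * Nat.sqrt n) ≤ W → Ok (triZ d h) n m

/-- WZ. Let `A = 2^75 Lg³ + 2 √n`. If `2^31 b Lg² l ≤ m ≤ l A`: `2^65 Lg² m ≤ l 2^65 Lg² A ≤ l W`; `2^31 b ≤ A`, so `4 b ≤ W`, and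
`b l ≤ m ≤ 2^Lg`, so `b (b l)² ≤ b 4^Lg`, and the sum is `≤ 2 b 4^Lg ≤ W 4^Lg`. -/
def GoalWZ : Prop := FAc → WZc

/-- CP (common points). On the line `P(ε) = (1 - ε) P1 + ε P2` the matrix has polynomial entries; `gen_inj`
(`Lead/ShBasic.lean`, `A = ℂ[X]`, `φ0 = aeval 0`, resp. `aeval 1`) gives two nonzero polynomials; take `ε` outside
the roots of their product. Second: `P1` with `InjAt`, `P2 = (1, 0)` for all `k`; also avoid the roots of the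
nonzero polynomials `(P(ε) k).1`, `k ∈ R.image Prod.fst`; for other `k` put `P k = (1, 0)`. -/
def GoalCP : Prop :=
  (∀ (D D' : Finset (ℕ × ℕ)) (R R' : Finset Row), Ind D R → Inj D' R' →
    ∃ P : ℕ → ℂ × ℂ, IndAt D R P ∧ InjAt D' R' P) ∧
  (∀ (D : Finset (ℕ × ℕ)) (R : Finset Row), Inj D R →
    ∃ P : ℕ → ℂ × ℂ, InjAt D R P ∧ ∀ k, (P k).1 ≠ 0)

/-- Wr (no element of a `k`-dimensional space of polynomials vanishes to order `k` at a general point).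
Claim, by induction on the dimension `v`: there is `W ≠ 0` with: if `W.eval t ≠ 0`, `f ∈ V`, `(X - t)^v ∣ f` then
`f = 0`. `v = 0`: `W = 1`. Step: `f1 ∈ V` nonzero; the map `f ↦ f' f1 - f f1'` has on `V` the kernel `ℂ f1` (if `f' f1 = f f1'`,
`f ≠ 0`: compare the leading coefficients, `deg f = deg f1`; subtract `c f1`), its image has dimension
`v - 1`; if `(X - t)^v ∣ f`, then `(X - t)^(v-1)` divides the image. Take `W = W' * f1`. -/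
def GoalWr : Prop := ∀ (k : ℕ) (V : Submodule ℂ (Polynomial ℂ)), Module.Finite ℂ V →
  Module.finrank ℂ V ≤ k →
  ∃ t : ℂ, ∀ f ∈ V, (Polynomial.X - Polynomial.C t) ^ k ∣ f → f = 0

/-- Sw (exchange of the coordinates). `E (o.2, o.1) (d.2, d.1) y x = E o d x y`, and `rows m s` is invariant
under `(k, (a, b)) ↦ (k, (b, a))`. -/
def GoalSw : Prop := ∀ (D : Finset (ℕ × ℕ)) (m : ℕ → ℕ) (s : Finset ℕ),
  Inj D (rows m s) → Inj (D.image (fun x => (x.2, x.1))) (rows m s)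

/-- Inv (the map `(x, y) ↦ (1/x, y/x)`). Take `P` with `InjAt D (rows m s) P`, all `(P k).1 ≠ 0` (CP), and
`P' k = (1 / x_k, y_k / x_k)`. Let `g = ∑_{(i,j) ∈ D} c (i,j) x^(N-i-j) y^j` satisfy the conditions at `P'`. Claim:
`f = ∑_D c (i,j) x^i y^j` satisfies them at `P`, so `c = 0`. For `x0 u0 = 1`, `v0 = y0 u0` and all `U`, `V` in a commutative
`ℂ`-algebra, `i + j ≤ N`:
`(x0 + U)^i (y0 + V)^j = ∑_{o.1 ≤ N-i-j, o.2 ≤ j} (E o (N-i-j, j) u0 v0) (x0 + U)^(N - o.1 - o.2) (-u0 U)^(o.1) (V - v0 U)^(o.2)`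
(binomial theorem twice: the right side is `(x0+U)^i (u0 (x0+U) - u0 U)^(N-i-j) (v0 (x0+U) + V - v0 U)^j`, and
`u0 x0 = 1`, `v0 x0 = y0`). So `f(x0 + U, y0 + V) = ∑_o (∑_D c E o (N-i-j,j) u0 v0) (…)` in `MvPolynomial (Fin 2) ℂ`; the terms
with `o.1 + o.2 < m` vanish by hypothesis, the other ones are multiples of products of `≥ m` linear forms in
`U, V`, so the coefficients of `f(x0+U, y0+V)` of total degree `< m`, which are the `∑_D c E o (i,j) x0 y0`, vanish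
(compare GoalS2 of project SG, `Pool/Agent/Helper18/SG/Goals.lean`, which is proved). -/
def GoalInv : Prop := GoalCP → ∀ (N : ℕ) (D : Finset (ℕ × ℕ)) (m : ℕ → ℕ) (s : Finset ℕ),
  (∀ x ∈ D, x.1 + x.2 ≤ N) → Inj D (rows m s) →
  Inj (D.image (fun x => (N - x.1 - x.2, x.2))) (rows m s)

/-- GT (translation in `x`). Let `P` with `IndAt D (rows m s) P` and `InjAt (D without the row j0) P` (CP). `K` = the
space of the `c` supported on `D` satisfying the conditions at `P`; `dim K = D.card - (rows m s).card ≤ k0` (the rows of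
the matrix are linearly independent). `V` = the space of the polynomials `∑_{(i,j0) ∈ D} c (i,j0) X^i`, `c ∈ K`; `dim V ≤ k0`;
by `InjAt`, `c` is determined by its polynomial. Wr gives `t`. Let `P' = P - (t, 0)` and let `c'`, supported on the cells of
the conclusion, satisfy the conditions at `P'`. `∑ c' (X - t)^i Y^j = ∑ c X^i Y^j` with `c` supported on `D` (first
hypothesis), `c` satisfies the conditions at `P`: (`(x - t + U)^i = ((x + U) - t)^i`) so `c ∈ K`, and its row `j0` is divisible by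
`(X - t)^k0`, hence `0`; so `c = 0` and `c' = 0`. -/
def GoalGT : Prop := GoalCP → GoalWr →
  ∀ (D : Finset (ℕ × ℕ)) (m : ℕ → ℕ) (s : Finset ℕ) (j0 k0 : ℕ),
  (∀ x ∈ D, ∀ i ≤ x.1, (i, x.2) ∈ D) → Ind D (rows m s) →
  Inj (D.filter (fun x => x.2 ≠ j0)) (rows m s) → D.card ≤ (rows m s).card + k0 →
  Inj (D.filter (fun x => x.2 = j0 → k0 ≤ x.1)) (rows m s)

/-- the conclusion of GL -/
def GLc : Prop := ∀ (m : ℕ → ℕ) (d e : ℕ) (s t : Finset ℕ), 1 ≤ e → e < d → Disjoint s t →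
  Ind (triD 0 e) (rows m s) → Inj (triD 0 (e - 1)) (rows m s) →
  Ind (triZ d (d - e + 1)) (rows m t) → Inj (triZ d (d - e)) (rows m t) →
  (triD 0 d).card ≤ (rows m (s ∪ t)).card → Inj (triD 0 d) (rows m (s ∪ t))

/-- GL (gluing along a line). Let `w = (triD 0 e).card - (rows m s).card` (`≥ 0` by `Ind`),
`v = (triZ d (d-e+1)).card - (rows m t).card`; the count gives `w + v ≤ e + 1` (`(triD 0 e).card + (triZ d (d-e+1)).card =
(triD 0 d).card + e + 1`). Put `k0 = w`, `k1 = e + 1 - w ≥ v`. Maps: `I_N (i,j) = (N-i-j, j)` (Inv), `J_N (i,j) = (i, N-i-j)` (= exchange,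
Inv, exchange: Sw). Points `s`: `J_e` maps `triD 0 (e-1)` to the cells `j ≥ 1` of `triD 0 e`; GT with `D = triD 0 e`, `j0 = 0`, `k0`; then `J_e` again:
`Inj A (rows m s)`, `A = {i + j < e} ∪ {i + j = e, k0 ≤ i}`. Points `t`: GT with `D = triZ d (d-e+1)`, `j0 = d - e`, `k1`; `I_d` maps
the result to `{j < d-e} ∪ {(i, d-e) : i ≤ e - k1}` (`i ≤ e - k1` iff `i < k0`; for `k0 = 0` the row is empty), `J_d` to
`B = {e < i + j ≤ d} ∪ {i + j = e, i < k0}`: `Inj B (rows m t)`. `triD 0 d = A ∪ B`; `Inj.glue` with the weight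
`w = (M, M + 1)`, `M = d + 1`, `c' = M e + e - k0`: the weight is `M (i + j) + j`. -/
def GoalGL : Prop := GoalCP → GoalWr → GoalSw → GoalInv → GoalGT → GLc

/-- GLd (the same for independence). `δ = (triD 0 d).card - (rows m (s ∪ t)).card = w + v - (e+1)` (notation of GL), and
`w, v ≤ …`: write `δ = a + b` with `a ≤ w`, `b ≤ v`. Add `a` new points of multiplicity `1` to `s` and `b` to `t` (`m'`, `s'`, `t'`,
indices not in `s ∪ t`; `m' = m` on `s ∪ t`): by the first part of the proof of SI (`Pool/Agent/Helper59/EW/SI.lean`: adding a general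
simple point to an independent set with fewer conditions than cells) the `Ind` hypotheses hold for `s'`, `t'`; the `Inj`
hypotheses hold by `Inj.mono` (`rows_mono`, `rows_congr`). GL gives `Inj (triD 0 d) (rows m' (s' ∪ t'))`, now
the matrix is square, so `Ind (triD 0 d) (rows m' (s' ∪ t'))`, and `Ind.mono`. -/
def GoalGLd : Prop := GLc →
  ∀ (m : ℕ → ℕ) (d e : ℕ) (s t : Finset ℕ), 1 ≤ e → e < d → Disjoint s t →
  Ind (triD 0 e) (rows m s) → Inj (triD 0 (e - 1)) (rows m s) →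
  Ind (triZ d (d - e + 1)) (rows m t) → Inj (triZ d (d - e)) (rows m t) →
  (rows m (s ∪ t)).card ≤ (triD 0 d).card → Ind (triD 0 d) (rows m (s ∪ t))

/-- Rx (renumbering of the points). With a bijection of the indices extended to `ℕ → ℕ`. -/
def GoalRx : Prop := ∀ (D : Finset (ℕ × ℕ)) (m : ℕ) (s t : Finset ℕ), s.card = t.card →
  (Ind D (rows (fun _ => m) s) → Ind D (rows (fun _ => m) t)) ∧
  (Inj D (rows (fun _ => m) s) → Inj D (rows (fun _ => m) t))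

/-- ND (numbers). `r = √n ≥ 2^200`, `j ≥ r / 1001`, `2^(Lg - 10) ≤ m < 2^(Lg - 9)`; `m ≥ n / 433 ≥ 2^391 Lg³`. `n ≤ 433 m ≤ 2^Lg`.
`4 j² ≥ n / 300000`. `2^143 Lg^5 ≤ j m`: `j ≥ 2^189 Lg`, `m ≥ 2^Lg / 2^10 ≥ Lg^4 / 2^15`. `2^69 Lg² r ≤ j m` as `m ≥ 2^80 Lg²`. `j ≤ √(433 m) / 1000
≤ √m / 40` for the next two. Last: `(d+1)(d+2) ≥ n m (m+1) - 6 m² ≥ 0.99 n m²`, so `d ≥ 0.98 r m`, and
`202 j (2 m + 1) ≤ 0.42 r m`. -/
def GoalND : Prop := ∀ n m Lg j : ℕ, 1 ≤ m → Lg = Nat.log 2 m + 10 → 2 ^ 400 * Lg ^ 3 ≤ n →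
  n ≤ 433 * m → j = Nat.sqrt n / 1000 →
  1 ≤ j ∧ n ≤ 2 ^ Lg ∧ m ≤ 2 ^ Lg ∧ 2 ^ 85 * Lg ^ 3 ≤ 4 * j ^ 2 ∧ 8 * j ^ 2 ≤ n ∧
  8 * (2 ^ 65 * Lg ^ 2 * (2 ^ 75 * Lg ^ 3 + 2 * Nat.sqrt n)) ≤ j * (2 * m + 1) ∧
  4 * (j * (2 * m + 1)) ≤ m ^ 2 ∧ 4 * j ≤ m ∧
  ∀ d : ℕ, |((d + 2).choose 2 : ℤ) - n * (m + 1).choose 2| < 3 * (m : ℤ) ^ 2 →
    202 * (j * (2 * m + 1)) ≤ d

/-- FinB (the main case of the full theorem). `j`, `Lg` of ND, `s = j (2 m + 1)`, `a = 4 j²`, `e = s - 1`,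
`E = C(d+2,2) - n C(m+1,2)`. `triZ d (d+1) = triD 0 d`, cardinalities from F1Z (`p = 1`). If `s ≤ 8 |E|`: WZ for
`triZ d (d+1)`. Otherwise (all the numbers below times 2; `2 a C(m+1,2) = s² - j²`, `8 j² ≤ s`):
`2 card (triZ (s-1) s) - 2 a T = s + j²`, `2 card (triZ (s-2) (s-1)) - 2 a T = j² - s`,
`2 card (triZ d (d-s+2)) - 2 (n - a) T = 2 E + s - j²`, `2 card (triZ d (d-s+1)) - 2 (n - a) T = 2 E - s - j²`.
In absolute value they are `≥ s / 4` and `≤ 4 s ≤ m²`, so WZ applies to all of them (`200 (d + 1 - h) ≤ h` as `202 s ≤ d`), and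
gives `Ind, Inj, Ind, Inj`. Rx: the points `range a` and `Ico a n`. GLc or GLd. -/
def GoalFinB : Prop := GoalF1Z → WZc → GLc → GoalGLd → GoalRx → GoalND →
  ∀ n m d : ℕ, 1 ≤ m → 2 ^ 400 * (Nat.log 2 m + 10) ^ 3 ≤ n → n ≤ 433 * m →
    |((d + 2).choose 2 : ℤ) - n * (m + 1).choose 2| < 3 * (m : ℤ) ^ 2 → Ok (triD 0 d) n m

/-- FinZ (the full theorem). If `3 m² ≤ |E|`: `Pool.Agent.Helper43.Gm.main_all`. If `n > 433 m`:
`Pool.Agent.Helper18.SG.main_room` for `d ≥ 3 m`; for `d < 3 m` again `|E| ≥ 3 m²` (as in the proof of Fin,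
`Pool/Agent/Helper46/EW/Fin.lean`). Otherwise FinB and `Pool.Agent.Lead.Rw.concl`.
`Nat.log 2 m + 10 ≤ 10 (1 + log m)`, so `C = 2^400 * 1000`. -/
def GoalFinZ : Prop :=
  (∀ n m d : ℕ, 1 ≤ m → 2 ^ 400 * (Nat.log 2 m + 10) ^ 3 ≤ n → n ≤ 433 * m →
    |((d + 2).choose 2 : ℤ) - n * (m + 1).choose 2| < 3 * (m : ℤ) ^ 2 → Ok (triD 0 d) n m) →
  ∃ C : ℝ, 0 < C ∧ ∀ n m d : ℕ, 1 ≤ m → C * (1 + Real.log m) ^ 3 ≤ n → NS n m d

end Pool.Agent.Helper18.EW
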