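import Mathlib
import Pool.Agent.Helper18.EW.Goals2

/-! Project EW: the game theorem (assembly). -/

set_option autoImplicit false

namespace Pool.Agent.Helper18.EW

open Finset
open Pool.Agent.Helper43.Hw (T na va lz Play aa ac sc oo sk U Dd Sd Pn nx bb np)
open Pool.Agent.Helper43.Gm (Pri)

theorem par_facts {μ R K b l Lg q : ℕ} (par : Par μ R K b l Lg q) :
    2 ^ 71 ≤ μ ∧ 2 ^ 31 * (b * l) ≤ μ ∧ 2 ^ 31 * (K * l) ≤ μ ∧ 2 ^ 40 ≤ b ∧ 2 ^ 71 * l ≤ μ := by
  have hb : 2 ^ 40 ≤ b := by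
    have := par.b1
    have := par.L1
    nlinarith
  have hq : 1 ≤ (q + 1) ^ 2 := Nat.one_le_pow _ _ (by omega)
  have h2 := par.b2
  have hl := par.l1
  have e1 : 2 ^ 31 * (b * l) ≤ μ := by
    calc 2 ^ 31 * (b * l) ≤ 2 ^ 31 * (b * l) * (q + 1) ^ 2 := Nat.le_mul_of_pos_right _ hq
      _ = 2 ^ 31 * b * (q + 1) ^ 2 * l := by ring
      _ ≤ μ := h2
  have e2 : 2 ^ 31 * (K * l) ≤ μ := by
    rw [par.hK]
    calc 2 ^ 31 * (b * (q + 1) * l) ≤ 2 ^ 31 * (b * (q + 1) * l) * (q + 1) :=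
          Nat.le_mul_of_pos_right _ (by omega)
      _ = 2 ^ 31 * b * (q + 1) ^ 2 * l := by ring
      _ ≤ μ := h2
  have e3 : 2 ^ 71 * l ≤ μ := by
    calc 2 ^ 71 * l = 2 ^ 31 * (2 ^ 40 * l) := by ring
      _ ≤ 2 ^ 31 * (b * l) := by gcongr
      _ ≤ μ := e1
  have e4 : 2 ^ 71 ≤ μ := by
    calc 2 ^ 71 ≤ 2 ^ 71 * l := Nat.le_mul_of_pos_right _ hl
      _ ≤ μ := e3
  exact ⟨e4, e1, e2, hb, e3⟩

theorem len_mono {R β : ℕ} {ℓ : ℕ → ℕ} (len : Len R β ℓ) {y z : ℕ} (h1 : 1 ≤ y) (h : y ≤ z)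
    (hz : z < R) : ℓ y ≤ ℓ z := by
  induction z, h using Nat.le_induction with
  | base => exact le_rfl
  | succ z hyz ih =>
    have := len.st z (by omega) hz
    have := ih (by omega)
    omega

theorem goalGame (hE1 : GoalE1) (hE4 : GoalE4) (hE8a : GoalE8a) (hE8b : GoalE8b)
    (hGE : GoalGE) (hG2 : GoalG2) (hE12 : GoalE12) (hE13 : GoalE13) (hE14 : GoalE14)
    (hEn : GoalEn) (hZ15 : GoalZ15) : GoalGame := by
  intro μ R N K b l Lg q β v w ℓ W par len lo hi v1 vb vc tot hvw h4w hw1 hw3 hw4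
  obtain ⟨hμ, hbl, hKl, hb, hl71⟩ := par_facts par
  have hl := par.l1
  have hR := par.R1
  have hK := par.hK
  have hμ1 : 1 ≤ μ := le_trans (by norm_num) hμ
  -- the bound for W
  have hWb : 2 ^ 10 * l * |W| ≤ (μ : ℤ) ^ 3 := by
    have h1 : w ^ 2 * (b * l + w) ≤ μ ^ 3 := by
      have hw' : w ≤ μ := by omega
      have h2 : b * l + w ≤ μ := by omega
      calc w ^ 2 * (b * l + w) ≤ μ ^ 2 * μ := by gcongr
        _ = μ ^ 3 := by ring
    have h2 : ((w ^ 2 * (b * l + w) : ℕ) : ℤ) ≤ (μ : ℤ) ^ 3 := by exact_mod_cast h1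
    have h3 : (0 : ℤ) ≤ l * |W| := by positivity
    nlinarith
  obtain ⟨κ1, x1, play1, ex1⟩ := hE1 μ R N K b l Lg q β ℓ W par len lo hi tot hWb
  obtain ⟨τ, κ2, x2, ph2, hlt1, hlt2⟩ :=
    hE4 μ R N K b l Lg q β v ℓ κ1 x1 par len lo hi v1 vb vc play1 ex1
  obtain ⟨a1, a2⟩ := hE8a μ R N K b l Lg q β v τ ℓ κ2 x2 ph2 hlt1 hlt2
  obtain ⟨b1, b2⟩ := hE8b μ R N K b l Lg q β v τ ℓ κ2 x2 W ph2 hlt1 hlt2 tot hWb
  set J := R - 1 - μ with hJ
  set S := J + μ / 400 with hS
  have hv2 : 2 * l + 2 ≤ 2 ^ q * v := by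
    have : 2 ^ 40 * l ≤ 640 * (2 ^ q * v) := le_trans (by gcongr) vc
    omega
  have ht1 := ph2.t1
  have ht2 := ph2.t2
  have hvμ : 2 ^ q * v ≤ μ := by omega
  have hτ1 : 1 ≤ τ := by
    rcases Nat.eq_zero_or_pos τ with h | h
    · exfalso
      have := ph2.g1
      rw [h] at this
      omega
    · exact h
  have hτJ : τ < J := by omega
  have h400 : 1 ≤ μ / 400 := by omega
  have hlzle : ∀ t, τ ≤ t → t ≤ S → lz μ R N κ2 x2 t ≤ ℓ t := by
    intro t h1 h2
    by_cases h3 : t ≤ J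
    · exact (a1 t h1 (by omega)).1
    · exact b2 t (by omega) (by omega)
  set Γ : ℕ → ℕ := fun t => ℓ t - lz μ R N κ2 x2 t with hΓ
  have hinc : ∀ t, τ ≤ t → t < S → μ + 16 * l * Γ t ≤ 16 * l * Γ (t + 1) := by
    intro t h1 h2
    by_cases h3 : t + 1 ≤ J
    · exact a2 t h1 (by omega)
    · have e1 := b1 t (by omega) (by omega)
      have e2 := hlzle t h1 (by omega)
      have e3 := hlzle (t + 1) (by omega) (by omega)
      obtain ⟨g1, hg1⟩ := Nat.exists_eq_add_of_le e2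
      obtain ⟨g2, hg2⟩ := Nat.exists_eq_add_of_le e3
      have e4 : Γ t = g1 := by simp only [hΓ]; omega
      have e5 : Γ (t + 1) = g2 := by simp only [hΓ]; omega
      rw [e4, e5]
      rw [hg1, hg2] at e1
      nlinarith
  have hK4 : ∀ t, τ ≤ t → t < S → Γ t + 4 * (b * (q + 1)) ≤ Γ (t + 1) := by
    intro t h1 h2
    have e1 := hinc t h1 h2
    rw [← hK]
    by_contra hcon
    push Not at hcon
    have e2 : 16 * l * Γ (t + 1) < 16 * l * (Γ t + 4 * K) :=
      (Nat.mul_lt_mul_left (by omega)).2 hcon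
    have e3 : 16 * l * (Γ t + 4 * K) = 16 * l * Γ t + 64 * (K * l) := by ring
    omega
  have hsum : ∀ k, τ + k ≤ S → k * μ ≤ 16 * l * Γ (τ + k) := by
    intro k
    induction k with
    | zero => intro _; simp
    | succ k ih =>
      intro h
      have e1 := ih (by omega)
      have e2 := hinc (τ + k) (by omega) (by omega)
      rw [← Nat.add_assoc]
      calc (k + 1) * μ = k * μ + μ := by ring
        _ ≤ μ + 16 * l * Γ (τ + k) := by omega
        _ ≤ _ := e2
  have hKS : b * (q + 1) * μ ≤ Γ S := by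
    have e1 := hsum (S - τ) (by omega)
    rw [show τ + (S - τ) = S by omega] at e1
    rw [← hK]
    have e2 : 16 * (K * l) ≤ S - τ := by omega
    have e3 : 16 * (K * l) * μ ≤ 16 * l * Γ S := le_trans (Nat.mul_le_mul_right _ e2) e1
    have e4 : 16 * l * (K * μ) ≤ 16 * l * Γ S := by
      calc 16 * l * (K * μ) = 16 * (K * l) * μ := by ring
        _ ≤ _ := e3
    exact Nat.le_of_mul_le_mul_left e4 (by omega)
  have hΓJ : 4 * Γ J ≤ b * μ := (a1 J (by omega) (by omega)).2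
  have hstart : ∀ j, 1 ≤ j → j ≤ q → τ + 2 + 2 ^ (q - j) * v ≤ J := by
    intro j hj1 hj2
    have e1 : 2 * (2 ^ (q - j) * v) ≤ 2 ^ q * v := by
      calc 2 * (2 ^ (q - j) * v) = 2 ^ (q - j + 1) * v := by ring
        _ ≤ 2 ^ q * v := by
            gcongr
            · norm_num
            · omega
    have hvq : 2 * (l + 2) ≤ 2 ^ q * v := by
      have : 2 ^ 40 * l ≤ 640 * (2 ^ q * v) := le_trans (by gcongr) vc
      omega
    omega
  obtain ⟨s, E, e, P, hJs, hsS, hlts, hKs, he1, hnd, hdr, hPS, hfirst, hbat⟩ :=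
    hGE μ b q τ J S v Γ (le_trans (by norm_num) hμ) (le_trans (by norm_num) hb) v1 hτJ
      (by omega) hstart hK4 hKS hΓJ
  rw [← hK] at hlts hKs he1 hnd hPS
  -- monotonicity of P
  have hPmono : ∀ t, τ ≤ t → ∀ k, t + k < s → P (t + k) ≤ P t := by
    intro t ht k
    induction k with
    | zero => intro _; simp
    | succ k ih =>
      intro h
      have := hdr (t + k) (by omega) (by omega)
      have := ih (by omega)
      rw [← Nat.add_assoc]
      omega
  have grp : Grp μ R K τ s E e P := by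
    refine ⟨hτ1, by omega, by omega, by omega, by omega, he1, hnd, hdr, ?_⟩
    intro i hi
    rcases Nat.lt_or_ge i b with h | h
    · have e1 := hfirst i h
      have e2 := hPmono (τ + 1) (by omega) (J - (τ + 1)) (by omega)
      rw [show τ + 1 + (J - (τ + 1)) = J by omega] at e2
      exact lt_of_le_of_lt (Nat.div_le_div_right e2) e1
    · have hbpos : 0 < b := by omega
      have e1 : 1 ≤ i / b := (Nat.one_le_div_iff hbpos).2 h
      have e2 : i / b ≤ q := by
        have : i / b < q + 1 := by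
          rw [Nat.div_lt_iff_lt_mul hbpos]
          rw [hK] at hi
          calc i < b * (q + 1) := hi
            _ = (q + 1) * b := by ring
        omega
      have e3 : i / b * b ≤ i := Nat.div_mul_le_self i b
      have e4 : i < (i / b + 1) * b := by
        have := Nat.lt_div_mul_add hbpos (a := i)
        calc i < i / b * b + b := this
          _ = (i / b + 1) * b := by ring
      exact (hbat (i / b) e1 e2 i e3 e4 J (by omega) (by omega)).2 (by omega)
  obtain ⟨⟨g0, gmid, gle, gtot⟩, -, -⟩ := hG2 μ R K τ s E e P hμ1 grp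
  have gΓ : ∀ z, τ ≤ z → z < s → gV μ R K τ s e P z = Γ z := by
    intro z h1 h2
    rw [gmid z h1 h2, hPS z h1 h2]
  -- gV ≤ ℓ
  have hsR : s < R := by omega
  have hls : K * μ ≤ ℓ s := by
    have : Γ s ≤ ℓ s := Nat.sub_le _ _
    omega
  have hgl : ∀ z < R, gV μ R K τ s e P z ≤ ℓ z := by
    intro z hz
    rcases Nat.lt_or_ge z τ with h | h
    · rw [g0 z h]; omega
    · rcases Nat.lt_or_ge z s with h' | h'
      · rw [gΓ z h h']
        exact Nat.sub_le _ _
      · exact le_trans (gle z hz) (le_trans hls (len_mono len (by omega) h' hz))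
  set L : ℕ → ℕ := fun z => ℓ z - gV μ R K τ s e P z with hL
  have hlz2 : ∀ z < s, lz μ R N κ2 x2 z = L z := by
    intro z hz
    rcases Nat.lt_or_ge z τ with h | h
    · have := ph2.ex.2.2 z (by omega)
      simp only [hL]
      rw [g0 z h, this]; omega
    · have e1 := hlzle z h (by omega)
      simp only [hL]
      rw [gΓ z h hz]
      simp only [hΓ]
      omega
  have hlz2s : lz μ R N κ2 x2 s ≤ L s := by
    have e1 := hlzle s (by omega) hsS
    have e2 := gle s hsR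
    have e3 : Γ s = ℓ s - lz μ R N κ2 x2 s := rfl
    simp only [hL]
    omega
  obtain ⟨κ, x, play, gr, ex, agr, hbb⟩ := hE12 μ R N τ s L κ2 x2 hμ1 (by omega) ph2.play hτ1
    (by omega) (by omega) (by omega) ph2.g2 (fun y h1 h2 => ph2.pa y h1 h2) hlz2 hlz2s
  have agτ := agr τ (by omega)
  have agτ1 := agr (τ - 1) (by omega)
  have hpa : ∀ t, τ ≤ t → t < s → κ t = κ τ ∧ x t = na μ R t := by
    intro t h1 h2
    have e1 := agr t h2
    have e2 := ph2.pa t h1 (by omega)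
    rw [e1.1, e1.2, agτ.1]
    exact e2
  have hg1 : κ (τ - 1) < κ τ := by
    rw [agτ.1, agτ1.1]; exact ph2.g1
  have hg2 : κ τ < N := by
    rw [agτ.1]; exact ph2.g2
  have ext := hE13 μ R N K b l Lg q β τ s E ℓ e P W hμ1 par len grp tot hgl (by
    intro t h1 h2
    rw [hPS t h1 (by omega), hPS (t + 1) (by omega) h2]
    exact hinc t h1 (by omega))
  have ph : Ph μ R N K b l Lg q β v τ s ℓ κ x := by
    refine ⟨par, len, lo, hi, v1, vb, vc, ph2.t1, ph2.t2, by omega, by omega, play, ?_, hg1, hg2,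
      hpa⟩
    refine ⟨by omega, ?_, ?_⟩
    · rw [agτ1.1]; exact ph2.ex.2.1
    · intro z hz
      rw [ex.2.2 z (by omega)]
      simp only [hL]
      rw [g0 z (by omega)]; omega
  have hpau : Pau μ R s κ x := by
    intro t h1 h2
    have e1 := hpa t (by omega) h2
    have e2 := hpa (s - 1) (by omega) (by omega)
    exact ⟨by rw [e1.1, e2.1], e1.2⟩
  obtain ⟨-, hnp⟩ := hEn μ R N K b l Lg q β v τ s ℓ κ x ph (by
    rw [ex.2.2 τ (by omega)]
    exact Nat.sub_le _ _)
  have hD : ∀ y, s ≤ y → y < R → w ≤ R - 1 - y → (R - 1 - y) ^ 2 * (b * l + (R - 1 - y)) ≤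
      4096 * l * (Dd μ R κ x y + gD μ R K τ s e P y) := by
    intro y h1 h2 h3
    exact hE14 μ R N K b l Lg q β v τ s E ℓ κ x e P y hμ1 ph grp hfirst hbat h1 h2 (by omega)
  have hfin := hZ15 μ R N K b l Lg q β s w W L (gO μ R K τ s e P) (gK μ K τ s e P)
    (gD μ R K τ s e P) (gS μ R K τ s e P) (gN μ R K τ s e P) κ x par len.b1 ext play gr
    (by omega) ex hbb hpau hnp (by omega) (by omega) h4w hD hw1 hw3 hw4
  refine ⟨κ, x, e, P, τ, s, E, play, grp, hpa, hg1, hg2, ?_⟩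
  rcases hfin with ⟨h1, h2⟩ | ⟨h1, h2⟩
  · left
    refine ⟨h1, fun z hz => ?_⟩
    have e1 := h2 z hz
    have e2 := hgl z hz
    simp only [hL] at e1
    omega
  · right
    refine ⟨h1, fun z hz => ?_⟩
    have e1 := h2 z hz
    have e2 := hgl z hz
    simp only [hL] at e1
    omega

end Pool.Agent.Helper18.EW
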