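import Mathlib
import Pool.Agent.Helper18.EW.Game
import Pool.Agent.Helper18.EW.Goals4
import Pool.Agent.Helper18.SG.Main
import Pool.Agent.Helper43.Hw.Main
import Pool.Agent.Helper94.EW.E3
import Pool.Agent.Helper12.EW.E5
import Pool.Agent.Helper90.EW.E6a
import Pool.Agent.Helper55.EW.E6
import Pool.Agent.Helper87.EW.E1
import Pool.Agent.Helper2.EW.E2
import Pool.Agent.Helper20.EW.E4
import Pool.Agent.Helper77.EW.E7
import Pool.Agent.Helper61.EW.En
import Pool.Agent.Helper73.EW.E8a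
import Pool.Agent.Helper48.EW.E8b
import Pool.Agent.Helper15.EW.GA
import Pool.Agent.Helper69.EW.GE
import Pool.Agent.Helper67.EW.G1
import Pool.Agent.Helper42.EW.G2
import Pool.Agent.Helper39.EW.G5
import Pool.Agent.Helper11.EW.G7
import Pool.Agent.Helper56.EW.G8
import Pool.Agent.Helper89.EW.E12
import Pool.Agent.Helper81.EW.E13
import Pool.Agent.Helper49.EW.E14
import Pool.Agent.Helper79.EW.Z8
import Pool.Agent.Helper33.EW.Z9
import Pool.Agent.Helper31.EW.Z10a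
import Pool.Agent.Helper83.EW.Z10b
import Pool.Agent.Helper3.EW.Z10
import Pool.Agent.Helper13.EW.Z12
import Pool.Agent.Helper50.EW.Z15
import Pool.Agent.Helper34.EW.PA
import Pool.Agent.Helper16.EW.PG
import Pool.Agent.Helper59.EW.SI
import Pool.Agent.Helper65.EW.NB
import Pool.Agent.Helper94.EW.F1Z
import Pool.Agent.Helper40.EW.NAZ
import Pool.Agent.Helper34.EW.CP
import Pool.Agent.Helper13.EW.Wr
import Pool.Agent.Helper9.EW.Sw
import Pool.Agent.Helper39.EW.Inv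
import Pool.Agent.Helper2.EW.GT
import Pool.Agent.Helper65.EW.GLd
import Pool.Agent.Helper82.EW.ND
import Pool.Agent.Helper48.EW.LnZ
import Pool.Agent.Helper4.EW.TriZ
import Pool.Agent.Helper56.EW.FAZ
import Pool.Agent.Helper85.EW.GL
import Pool.Agent.Helper35.EW.Rx
import Pool.Agent.Helper35.EW.FinB
import Pool.Agent.Helper27.EW.FinZ

/-! Project EW: assembly. -/

set_option autoImplicit false

namespace Pool.Agent.Helper18.EW

open Finset

theorem gH1 : Pool.Agent.Helper43.Hw.GoalH1 := Pool.Agent.Helper43.Hw.PkH1.goalH1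
theorem gH2 : Pool.Agent.Helper43.Hw.GoalH2 := Pool.Agent.Helper43.Hw.PkH2.goalH2 gH1
theorem gH4 : Pool.Agent.Helper43.Hw.GoalH4 := Pool.Agent.Helper43.Hw.PkH4.goalH4 gH1

theorem gE3 : GoalE3 := Pool.Agent.Helper94.EW.goalE3
theorem gE5 : GoalE5 := Pool.Agent.Helper12.EW.goalE5
theorem gE6a : GoalE6a := Pool.Agent.Helper90.EW.goalE6a gH1
theorem gE6 : GoalE6 := Pool.Agent.Helper55.EW.goalE6 gH4 gE6a
theorem gE1 : GoalE1 := Pool.Agent.Helper87.EW.goalE1 gH1 gH2 gH4 gE5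
theorem gE2 : GoalE2 := Pool.Agent.Helper2.EW.goalE2
theorem gE4 : GoalE4 := Pool.Agent.Helper20.EW.goalE4 gE2 gE6
theorem gE7 : GoalE7 := Pool.Agent.Helper77.EW.goalE7 gH1 gE6
theorem gEn : GoalEn := Pool.Agent.Helper61.EW.goalEn gE6 gE6a
theorem gE8a : GoalE8a := Pool.Agent.Helper73.EW.goalE8a gE6a
theorem gE8b : GoalE8b := Pool.Agent.Helper48.EW.goalE8b gE3 gE6 gE7 gE8a
theorem gGA : GoalGA := Pool.Agent.Helper15.EW.goalGA
theorem gGE : GoalGE := Pool.Agent.Helper69.EW.goalGE gGA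
theorem gG1 : GoalG1 := Pool.Agent.Helper67.EW.goalG1
theorem gG2 : GoalG2 := Pool.Agent.Helper42.EW.goalG2 gG1
theorem gG5 : GoalG5 := Pool.Agent.Helper39.EW.goalG5 gG1
theorem gG7 : GoalG7 := Pool.Agent.Helper11.EW.goalG7
theorem gG8 : GoalG8 := Pool.Agent.Helper56.EW.goalG8 gG1
theorem gE12 : GoalE12 := Pool.Agent.Helper89.EW.goalE12 gE5
theorem gE13 : GoalE13 := Pool.Agent.Helper81.EW.goalE13 gG2 gG5 gG7
theorem gE14 : GoalE14 := Pool.Agent.Helper49.EW.goalE14 gE7 gG8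
theorem gZ8 : GoalZ8 := Pool.Agent.Helper79.EW.goalZ8 gE3
theorem gZ9 : GoalZ9 := Pool.Agent.Helper33.EW.goalZ9 gH4
theorem gZ10a : GoalZ10a := Pool.Agent.Helper31.EW.goalZ10a gZ8 gZ9
theorem gZ10b : GoalZ10b := Pool.Agent.Helper83.EW.goalZ10b gH1 gH4
theorem gZ10 : GoalZ10 := Pool.Agent.Helper3.EW.goalZ10 gE3 gZ10a gZ10b
theorem gZ12 : GoalZ12 := Pool.Agent.Helper13.EW.goalZ12 gH1 gH2 gH4
theorem gPA : GoalPA := Pool.Agent.Helper34.EW.goalPA
theorem gPG : GoalPG := Pool.Agent.Helper16.EW.goalPG gPA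
theorem gSI : GoalSI := Pool.Agent.Helper59.EW.goalSI
theorem gNB : GoalNB := Pool.Agent.Helper65.EW.goalNB
theorem gF1Z : GoalF1Z := Pool.Agent.Helper94.EW.goalF1Z
theorem gNAZ : GoalNAZ := Pool.Agent.Helper40.EW.goalNAZ
theorem gCP : GoalCP := Pool.Agent.Helper34.EW.goalCP
theorem gWr : GoalWr := Pool.Agent.Helper13.EW.goalWr
theorem gSw : GoalSw := Pool.Agent.Helper9.EW.goalSw
theorem gInv : GoalInv := Pool.Agent.Helper39.EW.goalInv
theorem gGT : GoalGT := Pool.Agent.Helper2.EW.goalGT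
theorem gGLd : GoalGLd := Pool.Agent.Helper65.EW.goalGLd
theorem gND : GoalND := Pool.Agent.Helper82.EW.goalND
theorem gLnZ : GoalLnZ := Pool.Agent.Helper48.EW.goalLnZ
theorem gTriC : TriC := Pool.Agent.Helper4.EW.goalTriZ gH2 Pool.Agent.Helper18.SG.gS
  Pool.Agent.Helper18.SG.gA2 gF1Z gPG gG2 gSI
theorem gGLc : GLc := Pool.Agent.Helper85.EW.goalGL gCP gWr gSw gInv gGT
theorem gRx : GoalRx := Pool.Agent.Helper35.EW.goalRx

/-- the full theorem from Z11 and WZ -/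
theorem main_of (hZ11 : GoalZ11) (hWZ : GoalWZ) :
    ∃ C : ℝ, 0 < C ∧ ∀ n m d : ℕ, 1 ≤ m → C * (1 + Real.log m) ^ 3 ≤ n →
      Pool.Agent.Helper43.Hw.NS n m d := by
  have gZ15 : GoalZ15 := Pool.Agent.Helper50.EW.goalZ15 gZ10 gZ10a gZ10b hZ11 gZ12
  have gGame : GoalGame := goalGame gE1 gE4 gE8a gE8b gGE gG2 gE12 gE13 gE14 gEn gZ15
  have gFA : FAc := Pool.Agent.Helper56.EW.goalFAZ gF1Z gNAZ gNB gGame gLnZ gTriC
  have gWZ : WZc := hWZ gFA
  exact Pool.Agent.Helper27.EW.goalFinZ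
    (Pool.Agent.Helper35.EW.goalFinB gF1Z gWZ gGLc gGLd gRx gND)

end Pool.Agent.Helper18.EW
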