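import Mathlib
import Pool.Agent.Helper18.EW.Main
import Pool.Agent.Helper18.EW.Z11
import Pool.Agent.Helper12.EW.WZ

/-! Project EW: the full theorem for equal multiplicities. -/

set_option autoImplicit false

namespace Pool.Agent.Helper18.EW

theorem main_full : ∃ C : ℝ, 0 < C ∧ ∀ n m d : ℕ, 1 ≤ m → C * (1 + Real.log m) ^ 3 ≤ n →
    Pool.Agent.Helper43.Hw.NS n m d :=
  main_of (goalZ11 gH1 gH2 gE3 gH4) Pool.Agent.Helper12.EW.goalWZ

end Pool.Agent.Helper18.EW
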